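import Mathlib

-- merged part: Pool.Agent.Work.MP_8625e1_nt.Basic
section
/-! Congruence toolkit: expansions of functions on `π R` to first and second order. -/

namespace Pool.Agent.Work.MP_8625e1_nt

open Finset

variable {R : Type*} [CommRing R] {π : R}

/-- Inverse in a ring. -/
noncomputable abbrev iv (x : R) : R := Ring.inverse x

lemma mul_iv {x : R} (h : IsUnit x) : x * iv x = 1 := Ring.mul_inverse_cancel x h

lemma iv_mul (x y : R) : iv (x * y) = iv x * iv y := by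
  rw [iv, Ring.mul_inverse_rev, mul_comm]

lemma iv_congr {x y : R} (hx : IsUnit x) (hy : IsUnit y) (h : π ∣ x - y) : π ∣ iv x - iv y := by
  have : iv x - iv y = -(iv x * iv y) * (x - y) := by
    linear_combination iv y * mul_iv hx - iv x * mul_iv hy
  rw [this]; exact h.mul_left _

/-- Affine modulo `π ^ 2`. -/
def Aff (π : R) (f : R → R → R) : Prop :=
  ∃ c1 c2, ∀ e e', π ∣ e → π ∣ e' → π ^ 2 ∣ f e e' - (f 0 0 + c1 * e + c2 * e')

lemma Aff.lin (a b c : R) : Aff π fun e e' => a + b * e + c * e' :=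
  ⟨b, c, fun _ _ _ _ => ⟨0, by ring⟩⟩

lemma Aff.of_eq {f g : R → R → R} (h : Aff π f) (e : ∀ x y, g x y = f x y) : Aff π g := by
  rwa [show g = f from funext fun x => funext (e x)]

lemma Aff.const (a : R) : Aff π fun _ _ => a := (Aff.lin a 0 0).of_eq fun _ _ => by ring

lemma Aff.add {f g : R → R → R} (hf : Aff π f) (hg : Aff π g) :
    Aff π fun e e' => f e e' + g e e' := by
  obtain ⟨a, b, hf⟩ := hf
  obtain ⟨c, d, hg⟩ := hg
  refine ⟨a + c, b + d, fun e e' h h' => ?_⟩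
  obtain ⟨r, hr⟩ := hf e e' h h'
  obtain ⟨s, hs⟩ := hg e e' h h'
  exact ⟨r + s, by linear_combination hr + hs⟩

lemma Aff.mul {f g : R → R → R} (hf : Aff π f) (hg : Aff π g) :
    Aff π fun e e' => f e e' * g e e' := by
  obtain ⟨a, b, hf⟩ := hf
  obtain ⟨c, d, hg⟩ := hg
  refine ⟨a * g 0 0 + f 0 0 * c, b * g 0 0 + f 0 0 * d, fun e e' h h' => ?_⟩
  obtain ⟨r, hr⟩ := hf e e' h h'
  obtain ⟨s, hs⟩ := hg e e' h h'
  obtain ⟨t, rfl⟩ := h
  obtain ⟨t', rfl⟩ := h'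
  exact ⟨r * g (π * t) (π * t') + (f 0 0 + a * (π * t) + b * (π * t')) * s +
    (a * t + b * t') * (c * t + d * t'), by
    linear_combination g (π * t) (π * t') * hr + (f 0 0 + a * (π * t) + b * (π * t')) * hs⟩

lemma Aff.pow {f : R → R → R} (hf : Aff π f) (k : ℕ) : Aff π fun e e' => f e e' ^ k := by
  induction k with
  | zero => exact (Aff.const 1).of_eq fun _ _ => pow_zero _
  | succ k ih => exact (ih.mul hf).of_eq fun _ _ => pow_succ _ _

lemma Aff.sum (m : ℕ) {f : ℕ → R → R → R} (hf : ∀ i < m, Aff π (f i)) :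
    Aff π fun e e' => ∑ i ∈ range m, f i e e' := by
  induction m with
  | zero => exact (Aff.const 0).of_eq fun _ _ => by simp
  | succ m ih =>
    exact ((ih fun i h => hf i (by omega)).add (hf m (by omega))).of_eq
      fun _ _ => sum_range_succ _ _

lemma Aff.prod (m : ℕ) {f : ℕ → R → R → R} (hf : ∀ i < m, Aff π (f i)) :
    Aff π fun e e' => ∏ i ∈ range m, f i e e' := by
  induction m with
  | zero => exact (Aff.const 1).of_eq fun _ _ => by simp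
  | succ m ih =>
    exact ((ih fun i h => hf i (by omega)).mul (hf m (by omega))).of_eq
      fun _ _ => prod_range_succ _ _

lemma Aff.inv {f : R → R → R} (hf : Aff π f) (hu : ∀ e e', π ∣ e → π ∣ e' → IsUnit (f e e')) :
    Aff π fun e e' => iv (f e e') := by
  obtain ⟨a, b, hf⟩ := hf
  refine ⟨-(iv (f 0 0) ^ 2 * a), -(iv (f 0 0) ^ 2 * b), fun e e' h h' => ?_⟩
  obtain ⟨r, hr⟩ := hf e e' h h'
  have h1 := mul_iv (hu e e' h h')
  have h0 := mul_iv (hu 0 0 (dvd_zero _) (dvd_zero _))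
  obtain ⟨t, rfl⟩ := h
  obtain ⟨t', rfl⟩ := h'
  beta_reduce
  generalize f (π * t) (π * t') = y at hr h1 ⊢
  generalize iv y = j at h1 ⊢
  generalize f 0 0 = u at hr h0 ⊢
  generalize iv u = i at h0 ⊢
  obtain rfl : y = u + a * (π * t) + b * (π * t') + π ^ 2 * r := by linear_combination hr
  exact ⟨j * (-(i * r) + i ^ 2 * (a * t + b * t') * (a * t + b * t' + π * r)), by
    linear_combination (i - i ^ 2 * π * (a * t + b * t')) * h1 -
      j * (1 - i * π * (a * t + b * t')) * h0⟩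

lemma Aff.cst {f : R → R → R} (hf : Aff π f) {e e' : R} (h : π ∣ e) (h' : π ∣ e') :
    π ∣ f e e' - f 0 0 := by
  obtain ⟨a, b, hf⟩ := hf
  obtain ⟨r, hr⟩ := hf e e' h h'
  obtain ⟨t, rfl⟩ := h
  obtain ⟨t', rfl⟩ := h'
  exact ⟨π * r + a * t + b * t', by linear_combination hr⟩

/-- Second order expansion with linear coefficient `c`. -/
def Tay (π : R) (f : R → R) (c : R) : Prop :=
  ∃ d, ∀ e, π ∣ e → π ^ 3 ∣ f e - (f 0 + c * e + d * e ^ 2)

lemma Tay.lin (a b : R) : Tay π (fun e => a + b * e) b := ⟨0, fun _ _ => ⟨0, by ring⟩⟩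

lemma Tay.of_eq {f g : R → R} {c c' : R} (h : Tay π f c) (e : ∀ x, π ∣ x → g x = f x)
    (e' : c' = c) : Tay π g c' := by
  obtain ⟨d, h⟩ := h
  exact ⟨d, fun x hx => by rw [e x hx, e 0 (dvd_zero _), e']; exact h x hx⟩

lemma Tay.add {f g : R → R} {a c : R} (hf : Tay π f a) (hg : Tay π g c) :
    Tay π (fun e => f e + g e) (a + c) := by
  obtain ⟨b, hf⟩ := hf
  obtain ⟨d, hg⟩ := hg
  refine ⟨b + d, fun e h => ?_⟩
  obtain ⟨r, hr⟩ := hf e h
  obtain ⟨s, hs⟩ := hg e h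
  exact ⟨r + s, by linear_combination hr + hs⟩

lemma Tay.mul {f g : R → R} {a c : R} (hf : Tay π f a) (hg : Tay π g c) :
    Tay π (fun e => f e * g e) (a * g 0 + f 0 * c) := by
  obtain ⟨b, hf⟩ := hf
  obtain ⟨d, hg⟩ := hg
  refine ⟨b * g 0 + a * c + f 0 * d, fun e h => ?_⟩
  obtain ⟨r, hr⟩ := hf e h
  obtain ⟨s, hs⟩ := hg e h
  obtain ⟨t, rfl⟩ := h
  exact ⟨r * g (π * t) + (f 0 + a * (π * t) + b * (π * t) ^ 2) * s +
    t ^ 3 * (a * d + b * c + b * d * π * t), by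
    linear_combination g (π * t) * hr + (f 0 + a * (π * t) + b * (π * t) ^ 2) * hs⟩

lemma Tay.sum (m : ℕ) {f : ℕ → R → R} {c : ℕ → R} (hf : ∀ i < m, Tay π (f i) (c i)) :
    Tay π (fun e => ∑ i ∈ range m, f i e) (∑ i ∈ range m, c i) := by
  induction m with
  | zero => exact (Tay.lin 0 0).of_eq (fun _ _ => by simp) (by simp)
  | succ m ih =>
    exact ((ih fun i h => hf i (by omega)).add (hf m (by omega))).of_eq
      (fun _ _ => sum_range_succ _ _) (sum_range_succ _ _)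

lemma Tay.inv (m : R) (hu : ∀ e, π ∣ e → IsUnit (m + e)) :
    Tay π (fun e => iv (m + e)) (-iv m ^ 2) := by
  refine ⟨iv m ^ 3, fun e h => ?_⟩
  have h1 := mul_iv (hu e h)
  have h0 := mul_iv (hu 0 (dvd_zero _))
  obtain ⟨t, rfl⟩ := h
  simp only [add_zero] at h0 ⊢
  generalize iv (m + π * t) = j at h1 ⊢
  generalize iv m = i at h0 ⊢
  exact ⟨-(i ^ 3 * t ^ 3 * j), by
    linear_combination (i - i ^ 2 * (π * t) + i ^ 3 * (π * t) ^ 2) * h1 -
      j * (1 - i * (π * t) + i ^ 2 * (π * t) ^ 2) * h0⟩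

lemma prod_shift (m : ℕ) (d : ℕ → R) (hd : ∀ i < m, IsUnit (d i)) (e : R) :
    e ^ 2 ∣ ∏ i ∈ range m, (d i + e) -
      (∏ i ∈ range m, d i) * (1 + e * ∑ i ∈ range m, iv (d i)) := by
  induction m with
  | zero => simp
  | succ m ih =>
    obtain ⟨r, hr⟩ := ih fun i h => hd i (by omega)
    have h := mul_iv (hd m (by omega))
    rw [prod_range_succ, prod_range_succ, sum_range_succ]
    exact ⟨r * (d m + e) + (∏ i ∈ range m, d i) * ∑ i ∈ range m, iv (d i), by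
      linear_combination (d m + e) * hr - e * (∏ i ∈ range m, d i) * h⟩

lemma prodA (m : ℕ) (d : ℕ → R) (hd : ∀ i < m, IsUnit (d i)) (hs : π ∣ ∑ i ∈ range m, iv (d i))
    {e : R} (he : π ^ 2 ∣ e) : π ^ 3 ∣ ∏ i ∈ range m, (d i + e) - ∏ i ∈ range m, d i := by
  obtain ⟨r, hr⟩ := prod_shift m d hd e
  obtain ⟨s, hs⟩ := hs
  obtain ⟨t, rfl⟩ := he
  exact ⟨π * t ^ 2 * r + (∏ i ∈ range m, d i) * t * s, by
    linear_combination hr + (∏ i ∈ range m, d i) * π ^ 2 * t * hs⟩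

end Pool.Agent.Work.MP_8625e1_nt
end

-- merged part: Pool.Agent.Work.MP_8625e1_nt.Gram
section
/-! The bilinear concomitant of the truncated series. -/

namespace Pool.Agent.Work.MP_8625e1_nt

open Finset

variable {A : Type*} [CommRing A]

/-- Truncated series and its shifted derivatives. -/
def Y (n : ℕ) (a : ℕ → A) (e z : A) (i : ℕ) : A := ∑ k ∈ range (n + 1), a k * (k + e) ^ i * z ^ k

/-- The bilinear form. -/
def B (z : A) (u v : ℕ → A) : A :=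
  (1 - 64 * z) * (u 2 * v 0 - u 1 * v 1 + u 0 * v 2) - 32 * z * (u 1 * v 0 + u 0 * v 1) -
    16 * z * (u 0 * v 0)

/-- The quadratic form with `(s + t) q = s ^ 3 + t ^ 3`. -/
def q (s t : A) : A := s ^ 2 - s * t + t ^ 2

lemma map_Y {A' : Type*} [CommRing A'] (f : A →+* A') (n : ℕ) (a : ℕ → A) (e z : A) (i : ℕ) :
    f (Y n a e z i) = Y n (fun k => f (a k)) (f e) (f z) i := by
  simp [Y]

lemma tele (n : ℕ) (f g : ℕ → A) (h : ∀ j < n, g j = f (j + 1)) :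
    ∑ j ∈ range (n + 1), (f j - g j) = f 0 - g n := by
  induction n with
  | zero => simp
  | succ n ih => rw [sum_range_succ, ih fun j hj => h j (by omega), h n (by omega)]; ring

lemma half (n : ℕ) (a a' : ℕ → A) (e z : A) (I : ℕ → A)
    (ha : ∀ j < n, ((j + 1 : ℕ) + e) ^ 3 * a (j + 1) = 8 * (2 * (j + e) + 1) ^ 3 * a j) :
    ∑ j ∈ range (n + 1), ∑ k ∈ range (n + 1), a j * a' k * z ^ (j + k) *
      ((j + e) ^ 3 * I (j + k) - 8 * z * (2 * (j + e) + 1) ^ 3 * I (j + k + 1)) =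
    e ^ 3 * a 0 * ∑ k ∈ range (n + 1), a' k * z ^ k * I k -
      8 * (2 * (n + e) + 1) ^ 3 * a n *
        ∑ k ∈ range (n + 1), a' k * z ^ (n + k + 1) * I (n + k + 1) := by
  rw [sum_comm, mul_sum, mul_sum, ← sum_sub_distrib]
  refine sum_congr rfl fun k _ => ?_
  have := tele n (fun j => a j * a' k * z ^ (j + k) * ((j + e) ^ 3 * I (j + k)))
    (fun j => a j * a' k * z ^ (j + k) * (8 * z * (2 * (j + e) + 1) ^ 3 * I (j + k + 1)))
    (fun j hj => by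
      rw [show j + 1 + k = j + k + 1 by ring]
      linear_combination -(a' k * z ^ (j + k + 1) * I (j + k + 1)) * ha j hj)
  simp only [← mul_sub] at this
  rw [this]
  simp only [zero_add, Nat.cast_zero]
  ring

theorem gram (n : ℕ) (a a' : ℕ → A) (e e' z : A) (I : ℕ → A) (I0 : I 0 = 0)
    (I1 : I (2 * n + 1) = 0) (hI : ∀ m : ℕ, 1 ≤ m → m ≤ 2 * n → (m + e + e') * I m = 1)
    (ha : ∀ j < n, ((j + 1 : ℕ) + e) ^ 3 * a (j + 1) = 8 * (2 * (j + e) + 1) ^ 3 * a j)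
    (ha' : ∀ j < n, ((j + 1 : ℕ) + e') ^ 3 * a' (j + 1) = 8 * (2 * (j + e') + 1) ^ 3 * a' j) :
    B z (Y n a e z) (Y n a' e' z) = q e e' * (a 0 * a' 0) -
      16 * q (2 * (n + e) + 1) (2 * (n + e') + 1) * (a n * a' n) * z ^ (2 * n + 1) +
      (e ^ 3 * a 0 * ∑ k ∈ range (n + 1), a' k * z ^ k * I k -
        8 * (2 * (n + e) + 1) ^ 3 * a n *
          ∑ k ∈ range (n + 1), a' k * z ^ (n + k + 1) * I (n + k + 1)) +
      (e' ^ 3 * a' 0 * ∑ k ∈ range (n + 1), a k * z ^ k * I k -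
        8 * (2 * (n + e') + 1) ^ 3 * a' n *
          ∑ k ∈ range (n + 1), a k * z ^ (n + k + 1) * I (n + k + 1)) := by
  rw [← half n a a' e z I ha, ← half n a' a e' z I ha', sum_comm (f := fun j k => a' j * _ * _ * _)]
  have c0 : q e e' * (a 0 * a' 0) = ∑ j ∈ range (n + 1), ∑ k ∈ range (n + 1),
      if k = 0 then (if j = 0 then q e e' * (a 0 * a' 0) else 0) else 0 := by simp
  have c1 : 16 * q (2 * (n + e) + 1) (2 * (n + e') + 1) * (a n * a' n) * z ^ (2 * n + 1) =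
      ∑ j ∈ range (n + 1), ∑ k ∈ range (n + 1), if k = n then (if j = n then
        16 * q (2 * (n + e) + 1) (2 * (n + e') + 1) * (a n * a' n) * z ^ (2 * n + 1) else 0)
        else 0 := by simp
  rw [c0, c1]
  simp only [B, Y, sum_mul_sum]
  simp only [mul_sum, ← sum_add_distrib, ← sum_sub_distrib]
  refine sum_congr rfl fun j hj => sum_congr rfl fun k hk => ?_
  rw [mem_range] at hj hk
  have h1 : q (j + e) (k + e') * (a j * a' k) * z ^ (j + k) =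
      (if k = 0 then (if j = 0 then q e e' * (a 0 * a' 0) else 0) else 0) +
      a j * a' k * z ^ (j + k) * (((j + e) ^ 3 + (k + e') ^ 3) * I (j + k)) := by
    by_cases h : j + k = 0
    · obtain ⟨rfl, rfl⟩ : j = 0 ∧ k = 0 := by omega
      simp [I0]
    · have := hI (j + k) (by omega) (by omega)
      rw [show (if k = 0 then (if j = 0 then q e e' * (a 0 * a' 0) else 0) else 0) = 0 by
        split_ifs <;> first | rfl | omega]
      push_cast at this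
      unfold q
      linear_combination -(a j * a' k * z ^ (j + k) *
        ((j + e) ^ 2 - (j + e) * (k + e') + (k + e') ^ 2)) * this
  have h2 : 16 * q (2 * (j + e) + 1) (2 * (k + e') + 1) * (a j * a' k) * z ^ (j + k + 1) =
      (if k = n then (if j = n then
        16 * q (2 * (n + e) + 1) (2 * (n + e') + 1) * (a n * a' n) * z ^ (2 * n + 1) else 0)
        else 0) + a j * a' k * z ^ (j + k + 1) *
        (8 * ((2 * (j + e) + 1) ^ 3 + (2 * (k + e') + 1) ^ 3) * I (j + k + 1)) := by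
    by_cases h : j + k = 2 * n
    · obtain ⟨rfl, rfl⟩ : j = n ∧ k = n := by omega
      rw [h, I1]
      simp
    · have := hI (j + k + 1) (by omega) (by omega)
      rw [show (if k = n then (if j = n then
        16 * q (2 * (n + e) + 1) (2 * (n + e') + 1) * (a n * a' n) * z ^ (2 * n + 1) else 0)
        else 0) = 0 by split_ifs <;> first | rfl | omega]
      push_cast at this
      unfold q
      linear_combination -(16 * a j * a' k * z ^ (j + k + 1) * ((2 * (j + e) + 1) ^ 2 -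
        (2 * (j + e) + 1) * (2 * (k + e') + 1) + (2 * (k + e') + 1) ^ 2)) * this
  rw [add_comm k j]
  unfold q at h1 h2 ⊢
  linear_combination h1 - h2

end Pool.Agent.Work.MP_8625e1_nt
end

-- merged part: Pool.Agent.Work.MP_8625e1_nt.Seq
section
/-! The deformed central binomial coefficients. -/

namespace Pool.Agent.Work.MP_8625e1_nt

open Finset

variable {R : Type*} [CommRing R] {π : R} {n : ℕ}

/-- The arithmetic facts about `π = 2 n + 1` that are used. -/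
structure Ctx (n : ℕ) (π : R) : Prop where
  hp : π = 2 * n + 1
  hu : ∀ m : ℕ, 1 ≤ m → m ≤ 2 * n → ∀ e, π ∣ e → IsUnit ((m : R) + e)
  h2 : π ∣ ∑ i ∈ range (2 * n), iv ((i + 1 : ℕ) : R) ^ 2
  n2 : 2 ≤ n
  pr : Prime π

/-- Rising factorial. -/
def P (a : R) (k : ℕ) : R := ∏ i ∈ range k, (a + i)

/-- Numerator. -/
def Dd (e : R) (k : ℕ) : R := ∏ i ∈ range k, 2 * (2 * (i + e) + 1)

/-- Inverse rising factorial. -/
noncomputable def Q (e : R) (k : ℕ) : R := iv (P (1 + e) k)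

/-- Deformed cube of the central binomial coefficient. -/
noncomputable def aa (e : R) (k : ℕ) : R := (Dd e k * Q e k) ^ 3

@[simp] lemma P_zero (a : R) : P a 0 = 1 := by simp [P]
@[simp] lemma Dd_zero (a : R) : Dd a 0 = 1 := by simp [Dd]
@[simp] lemma Q_zero (a : R) : Q a 0 = 1 := by simp [Q]
@[simp] lemma aa_zero (a : R) : aa a 0 = 1 := by simp [aa]

lemma P_succ (a : R) (k : ℕ) : P a (k + 1) = P a k * (a + k) := prod_range_succ _ _

lemma Dd_succ (e : R) (k : ℕ) : Dd e (k + 1) = Dd e k * (2 * (2 * (k + e) + 1)) :=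
  prod_range_succ _ _

lemma P_add (a : R) (i j : ℕ) : P a (i + j) = P a i * P (a + i) j := by
  induction j with
  | zero => simp
  | succ j ih => rw [← add_assoc, P_succ, P_succ, ih]; push_cast; ring

lemma P_succ' (a : R) (k : ℕ) : P a (k + 1) = a * P (a + 1) k := by
  rw [add_comm k, P_add, P_succ]; simp

lemma P_two (e : R) (k : ℕ) : P (1 + 2 * e) (2 * k) = Dd e k * P (1 + e) k := by
  induction k with
  | zero => simp
  | succ k ih =>
    rw [show 2 * (k + 1) = 2 * k + 1 + 1 by ring, P_succ, P_succ, P_succ, Dd_succ, ih]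
    push_cast; ring

lemma P_congr {a b : R} (h : π ∣ a - b) (k : ℕ) : π ∣ P a k - P b k := by
  induction k with
  | zero => simp
  | succ k ih =>
    rw [P_succ, P_succ, show P a k * (a + k) - P b k * (b + k) =
      (P a k - P b k) * (a + k) + P b k * (a - b) by ring]
    exact (ih.mul_right _).add (h.mul_left _)

lemma aff_P (a b c : R) (k : ℕ) : Aff π fun e e' => P (a + b * e + c * e') k :=
  Aff.prod k (f := fun i e e' => a + b * e + c * e' + i) fun i _ =>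
    (Aff.lin (a + i) b c).of_eq fun _ _ => by ring

lemma aff_Dd (b c : R) (k : ℕ) : Aff π fun e e' => Dd (b * e + c * e') k :=
  Aff.prod k (f := fun i e e' => 2 * (2 * (i + (b * e + c * e')) + 1)) fun i _ =>
    (Aff.lin (4 * (i : R) + 2) (4 * b) (4 * c)).of_eq fun _ _ => by ring

namespace Ctx

variable (C : Ctx n π)
include C

lemma un {m : ℕ} (h1 : 1 ≤ m) (h2 : m ≤ 2 * n) : IsUnit (m : R) := by
  simpa using C.hu m h1 h2 0 (dvd_zero _)

lemma u2 : IsUnit (2 : R) := by simpa using C.un (m := 2) (by omega) (by have := C.n2; omega)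

lemma u3 : IsUnit (3 : R) := by simpa using C.un (m := 3) (by omega) (by have := C.n2; omega)

lemma uP {e : R} (he : π ∣ e) {k : ℕ} (hk : k ≤ 2 * n) : IsUnit (P (1 + e) k) := by
  induction k with
  | zero => simp
  | succ k ih =>
    rw [P_succ]
    refine (ih (by omega)).mul ?_
    have := C.hu (k + 1) (by omega) hk e he
    rwa [show ((k + 1 : ℕ) : R) + e = 1 + e + k by push_cast; ring] at this

lemma PQ {e : R} (he : π ∣ e) {k : ℕ} (hk : k ≤ 2 * n) : P (1 + e) k * Q e k = 1 :=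
  mul_iv (C.uP he hk)

lemma Q_succ {e : R} (he : π ∣ e) {k : ℕ} (hk : k + 1 ≤ 2 * n) :
    Q e k = (k + 1 + e) * Q e (k + 1) := by
  have h1 := C.PQ he hk
  have h2 := C.PQ he (show k ≤ 2 * n by omega)
  rw [P_succ] at h1
  linear_combination (k + 1 + e) * Q e (k + 1) * h2 - Q e k * h1

lemma aa_rec {e : R} (he : π ∣ e) (j : ℕ) (hj : j < n) :
    ((j + 1 : ℕ) + e) ^ 3 * aa e (j + 1) = 8 * (2 * (j + e) + 1) ^ 3 * aa e j := by
  rw [aa, aa, Dd_succ, C.Q_succ he (show j + 1 ≤ 2 * n by omega)]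
  push_cast; ring

lemma aff_Q (b c : R) {k : ℕ} (hk : k ≤ 2 * n) : Aff π fun e e' => Q (b * e + c * e') k :=
  ((aff_P 1 b c k).of_eq fun _ _ => by rw [add_assoc]).inv fun _ _ h h' =>
    C.uP ((h.mul_left _).add (h'.mul_left _)) hk

lemma aff_aa (b c : R) {k : ℕ} (hk : k ≤ 2 * n) : Aff π fun e e' => aa (b * e + c * e') k :=
  ((aff_Dd b c k).mul (C.aff_Q b c hk)).pow 3

omit C in
lemma sum_pair (f : ℕ → R) : ∑ i ∈ range (2 * n), f i =
    ∑ i ∈ range n, (f i + f (2 * n - 1 - i)) := by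
  rw [two_mul, sum_range_add, sum_add_distrib, ← sum_range_reflect (fun i => f (n + i))]
  refine congrArg _ (sum_congr rfl fun i hi => congrArg f ?_)
  rw [mem_range] at hi; omega

omit C in
lemma prod_pair (f : ℕ → R) : ∏ i ∈ range (2 * n), f i =
    ∏ i ∈ range n, (f i * f (2 * n - 1 - i)) := by
  rw [two_mul, prod_range_add, prod_mul_distrib, ← prod_range_reflect (fun i => f (n + i))]
  refine congrArg _ (prod_congr rfl fun i hi => congrArg f ?_)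
  rw [mem_range] at hi; omega

lemma cast_refl {i : ℕ} (hi : i < n) : ((2 * n - 1 - i : ℕ) : R) = π - 2 - i := by
  rw [C.hp, show 2 * n - 1 - i = 2 * n - (i + 1) by omega, Nat.cast_sub (by omega)]
  push_cast; ring

lemma u_refl {i : ℕ} (hi : i < n) : IsUnit (π - (i + 1)) := by
  have := C.un (m := 2 * n - 1 - i + 1) (by omega) (by omega)
  rwa [Nat.cast_add, C.cast_refl hi, show π - 2 - i + ((1 : ℕ) : R) = π - (i + 1) by
    push_cast; ring] at this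

lemma u_succ {i : ℕ} (hi : i < 2 * n) : IsUnit ((i : R) + 1) := by
  simpa using C.un (m := i + 1) (by omega) hi

lemma h2' : π ∣ ∑ i ∈ range n, iv (((i : R) + 1) ^ 2) := by
  have h := C.h2
  rw [sum_pair] at h
  have h3 : π ∣ ∑ i ∈ range n, (iv ((i + 1 : ℕ) : R) ^ 2 + iv ((2 * n - 1 - i + 1 : ℕ) : R) ^ 2) -
      2 * ∑ i ∈ range n, iv (((i : R) + 1) ^ 2) := by
    rw [mul_sum, ← sum_sub_distrib]
    refine dvd_sum fun i hi => ?_
    rw [mem_range] at hi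
    rw [Ring.inverse_pow, Ring.inverse_pow, Nat.cast_add (2 * n - 1 - i), C.cast_refl hi]
    have := iv_congr (π := π) ((C.u_refl hi).pow 2) ((C.u_succ (i := i) (by omega)).pow 2)
      ⟨π - 2 * (i + 1), by ring⟩
    rw [show π - 2 - i + ((1 : ℕ) : R) = π - (i + 1) by push_cast; ring]
    push_cast
    obtain ⟨r, hr⟩ := this
    exact ⟨r, by linear_combination hr⟩
  have := (dvd_sub h h3)
  rw [sub_sub_cancel] at this
  exact (C.u2.dvd_mul_left).1 this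

lemma h2'' : π ∣ ∑ i ∈ range n, iv (((i : R) + 1) * (π - (i + 1))) := by
  have h3 : π ∣ ∑ i ∈ range n, (iv (((i : R) + 1) * (π - (i + 1))) + iv (((i : R) + 1) ^ 2)) := by
    refine dvd_sum fun i hi => ?_
    rw [mem_range] at hi
    have h1 := mul_iv ((C.u_succ (i := i) (by omega)).mul (C.u_refl hi))
    have h2 := mul_iv ((C.u_succ (i := i) (by omega)).pow 2)
    exact ⟨iv (((i : R) + 1) * (π - (i + 1))) * iv (((i : R) + 1) ^ 2) * (i + 1), by
      linear_combination -iv (((i : R) + 1) ^ 2) * h1 - iv (((i : R) + 1) * (π - (i + 1))) * h2⟩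
  rw [sum_add_distrib] at h3
  exact (dvd_add_left C.h2').1 h3

/-- The product of the pairs. -/
lemma P_full {e : R} (he : π ∣ e) : π ^ 3 ∣ P (1 + e) (2 * n) -
    ∏ i ∈ range n, ((i : R) + 1) * (π - (i + 1)) := by
  have := prodA n _ (fun i hi => (C.u_succ (i := i) (by omega)).mul (C.u_refl hi)) C.h2''
    (e := e * (π + e)) (by rw [sq]; exact mul_dvd_mul he ((dvd_refl _).add he))
  rwa [P, prod_pair, prod_congr rfl (g := fun i : ℕ => ((i : R) + 1) * (π - (i + 1)) + e * (π + e))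
    fun i hi => by rw [C.cast_refl (mem_range.1 hi)]; ring]

lemma K_one {a b : R} (ha : π ∣ a) (hb : π ∣ b) :
    π ^ 3 ∣ (P (1 + a) (2 * n) * Q b (2 * n)) ^ 2 - 1 := by
  obtain ⟨r, hr⟩ := C.P_full ha
  obtain ⟨s, hs⟩ := C.P_full hb
  have h := C.PQ hb le_rfl
  exact ⟨(r - s) * Q b (2 * n) * (P (1 + a) (2 * n) * Q b (2 * n) + 1), by
    linear_combination (P (1 + a) (2 * n) * Q b (2 * n) + 1) * (Q b (2 * n) * (hr - hs) + h)⟩

lemma P_half {e : R} (he : π ∣ e) : π ^ 3 ∣ P (1 + e) n * P (1 + (-π - e)) n -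
    (-1) ^ n * ∏ i ∈ range n, ((i : R) + 1) * (π - (i + 1)) := by
  obtain ⟨r, hr⟩ := prodA n _ (fun i hi => (C.u_succ (i := i) (by omega)).mul (C.u_refl hi)) C.h2''
    (e := e * (π + e)) (by rw [sq]; exact mul_dvd_mul he ((dvd_refl _).add he))
  have : P (1 + e) n * P (1 + (-π - e)) n =
      (-1) ^ n * ∏ i ∈ range n, (((i : R) + 1) * (π - (i + 1)) + e * (π + e)) := by
    rw [P, P, ← prod_mul_distrib, ← card_range n, ← prod_const, card_range, ← prod_mul_distrib]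
    exact prod_congr rfl fun i _ => by ring
  exact ⟨(-1) ^ n * r, by rw [this]; linear_combination (-1) ^ n * hr⟩

lemma D_half {e : R} (he : π ∣ e) : π ^ 3 ∣ Dd e n * Dd (-π - e) n - 16 ^ n * P 1 n ^ 2 := by
  obtain ⟨r, hr⟩ := prodA n (fun i => ((i : R) + 1) ^ 2)
    (fun i hi => (C.u_succ (i := i) (by omega)).pow 2) C.h2'
    (e := -(iv 2 * (π + 2 * e)) ^ 2)
    ((pow_dvd_pow_of_dvd (((dvd_refl _).add (he.mul_left _)).mul_left _) 2).neg_right)
  have h2 := mul_iv C.u2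
  have : Dd e n * Dd (-π - e) n =
      16 ^ n * ∏ i ∈ range n, (((i : R) + 1) ^ 2 + -(iv 2 * (π + 2 * e)) ^ 2) := by
    rw [Dd, Dd, ← prod_mul_distrib, ← prod_range_reflect, ← card_range n, ← prod_const, card_range,
      ← prod_mul_distrib]
    refine prod_congr rfl fun i hi => ?_
    rw [mem_range] at hi
    have : ((n - 1 - i : ℕ) : R) = n - 1 - i := by
      rw [show n - 1 - i = n - (i + 1) by omega, Nat.cast_sub (by omega)]; push_cast; ring
    rw [this]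
    have hp := C.hp
    linear_combination 4 * (π + 2 * e) ^ 2 * (2 * iv (2 : R) + 1) * h2 +
      4 * (π - 2 * n + 4 * i + 3 + (2 * n + 1 - π) + (π - 2 * n - 1)) * hp
  have h3 : ∏ i ∈ range n, ((i : R) + 1) ^ 2 = P 1 n ^ 2 := by
    rw [P, ← prod_pow]; exact prod_congr rfl fun i _ => by ring
  exact ⟨16 ^ n * r, by rw [this, ← h3]; linear_combination 16 ^ n * hr⟩

end Ctx

end Pool.Agent.Work.MP_8625e1_nt
end

-- merged part: Pool.Agent.Work.MP_8625e1_nt.Top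
section
/-! Expansions of the coefficients and the shape of the Gram matrix at `z = 1`. -/

namespace Pool.Agent.Work.MP_8625e1_nt

open Finset

variable {R : Type*} [CommRing R] {π : R} {n : ℕ}

/-- Logarithmic derivative of the central binomial coefficient. -/
noncomputable def hh (R : Type*) [CommRing R] (k : ℕ) : R :=
  ∑ i ∈ range k, (2 * iv (2 * (i : R) + 1) - iv ((i : R) + 1))

/-- Inverses of `m + s` for `1 ≤ m ≤ 2 n`. -/
noncomputable def J (n : ℕ) (s : R) (m : ℕ) : R := if 1 ≤ m ∧ m ≤ 2 * n then iv (m + s) else 0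

namespace Ctx

variable (C : Ctx n π)
include C

lemma morley : π ^ 3 ∣ (-1) ^ n * ∏ i ∈ range n, ((i : R) + 1) * (π - (i + 1)) -
    16 ^ n * P 1 n ^ 2 := by
  have h2 := mul_iv C.u2
  obtain ⟨r, hr⟩ := C.P_full (dvd_zero π)
  obtain ⟨s, hs⟩ := C.P_half (e := -(π * iv 2)) (Dvd.intro _ rfl).neg_right
  have h3 := P_two (0 : R) n
  have hu := C.uP (dvd_zero π) le_rfl
  rw [show -π - -(π * iv 2) = -(π * iv 2) by linear_combination π * h2] at hs
  simp only [add_zero, mul_zero] at hr h3 hu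
  have h4 : Dd 0 n = (-4) ^ n * P (1 + -(π * iv 2)) n := by
    rw [Dd, P, ← prod_range_reflect, ← card_range n, ← prod_const, card_range, ← prod_mul_distrib]
    refine prod_congr rfl fun i hi => ?_
    rw [mem_range] at hi
    have : ((n - 1 - i : ℕ) : R) = n - 1 - i := by
      rw [show n - 1 - i = n - (i + 1) by omega, Nat.cast_sub (by omega)]; push_cast; ring
    rw [this]
    linear_combination -2 * π * h2 - 2 * C.hp
  have h5 : ((-1 : R) ^ n) ^ 2 = 1 := by rw [← pow_mul, mul_comm, pow_mul]; simp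
  have h6 : (-4 : R) ^ n = (-1) ^ n * 4 ^ n := neg_pow _ _
  have h7 : (16 : R) ^ n = (4 ^ n) ^ 2 := by rw [← pow_mul, mul_comm, pow_mul]; norm_num
  have h8 : π ^ 3 ∣ Dd 0 n * (Dd 0 n - (-1) ^ n * 16 ^ n * P 1 n) :=
    ⟨16 ^ n * s - (-1) ^ n * 16 ^ n * r, by
      rw [h7] at *
      linear_combination (Dd 0 n + (-1) ^ n * 4 ^ n * P (1 + -(π * iv 2)) n) * (h4 +
        P (1 + -(π * iv 2)) n * h6) + (4 ^ n * P (1 + -(π * iv 2)) n) ^ 2 * h5 + (4 ^ n) ^ 2 * hs -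
        (-1) ^ n * (4 ^ n) ^ 2 * (hr - h3)⟩
  obtain ⟨t, ht⟩ := (isUnit_of_mul_isUnit_left (h3 ▸ hu)).dvd_mul_left.1 h8
  exact ⟨(-1) ^ n * (P 1 n * t - r), by
    linear_combination (-1) ^ n * (P 1 n * ht - hr + h3) + 16 ^ n * P 1 n ^ 2 * h5⟩

lemma aa_refl {e : R} (he : π ∣ e) : π ^ 3 ∣ aa e n * aa (-π - e) n - 1 := by
  obtain ⟨r, hr⟩ := C.P_half he
  obtain ⟨s, hs⟩ := C.D_half he
  obtain ⟨t, ht⟩ := C.morley
  have h1 := C.PQ he (show n ≤ 2 * n by omega)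
  have h2 := C.PQ ((dvd_refl π).neg_right.sub he) (show n ≤ 2 * n by omega)
  have h3 : π ^ 3 ∣ Dd e n * Q e n * (Dd (-π - e) n * Q (-π - e) n) - 1 :=
    ⟨(s - t - r) * Q e n * Q (-π - e) n, by
      linear_combination Q e n * Q (-π - e) n * (hs - ht - hr) + P (1 + e) n * Q e n * h2 + h1⟩
  rw [aa, aa, ← mul_pow, ← one_pow 3]
  exact h3.trans (sub_dvd_pow_sub_pow _ _ 3)

lemma tay_c {k : ℕ} (hk : k ≤ n) :
    Tay π (fun e => Dd e k * Q e k) (Dd 0 k * Q 0 k * hh R k) := by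
  induction k with
  | zero => exact (Tay.lin 1 0).of_eq (fun _ _ => by simp) (by simp [hh])
  | succ k ih =>
    have hq : ∀ e : R, Q e (k + 1) = Q e k * iv ((k + 1 : ℕ) + e) := fun e => by
      rw [Q, P_succ, iv_mul, show 1 + e + k = (k + 1 : ℕ) + e by push_cast; ring, Q]
    have h := ((ih (by omega)).mul (Tay.lin (2 * (2 * (k : R) + 1)) 4)).mul
      (Tay.inv ((k + 1 : ℕ) : R) (C.hu (k + 1) (by omega) (by omega)))
    refine h.of_eq (fun e _ => by rw [Dd_succ, hq]; ring) ?_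
    have h1 := mul_iv (C.un (m := 2 * k + 1) (by omega) (by omega))
    rw [Dd_succ, hq, hh, sum_range_succ, ← hh]
    push_cast at h1 ⊢
    simp only [add_zero, mul_zero]
    linear_combination 4 * Dd 0 k * Q 0 k * iv ((k : R) + 1) * h1

lemma tay_aa {k : ℕ} (hk : k ≤ n) : Tay π (fun e => aa e k) (3 * aa 0 k * hh R k) :=
  (((C.tay_c hk).mul (C.tay_c hk)).mul (C.tay_c hk)).of_eq (fun _ _ => by rw [aa]; ring)
    (by rw [aa]; ring)

lemma tay_Y (i : ℕ) : ∃ c, Tay π (fun e => Y n (aa e) e 1 i) c := by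
  have h : ∀ k : ℕ, ∃ c, Tay π (fun e => ((k : R) + e) ^ i) c := fun k => by
    induction i with
    | zero => exact ⟨0, (Tay.lin 1 0).of_eq (fun _ _ => by simp) rfl⟩
    | succ i ih =>
      obtain ⟨c, hc⟩ := ih
      exact ⟨_, (hc.mul (Tay.lin (k : R) 1)).of_eq (fun _ _ => by ring) rfl⟩
  choose c hc using h
  exact ⟨_, (Tay.sum (n + 1) fun k hk => (C.tay_aa (k := k) (by omega)).mul (hc k)).of_eq
    (fun _ _ => by simp [Y]) rfl⟩

lemma tay_Y0 : Tay π (fun e => Y n (aa e) e 1 0) (∑ k ∈ range (n + 1), 3 * aa 0 k * hh R k) :=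
  (Tay.sum (n + 1) fun k hk => C.tay_aa (k := k) (by omega)).of_eq (fun _ _ => by simp [Y]) rfl

lemma aa_top [IsDomain R] : ∃ κ κ', ∀ e e', π ∣ e → π ∣ e' → π ^ 3 ∣ aa e n * aa e' n -
    (1 + κ * (π + 2 * e + (π + 2 * e')) + κ' * (π + 2 * e + (π + 2 * e')) ^ 2) := by
  have h2 := mul_iv C.u2
  obtain ⟨φ0, φ1, φ2, hφ⟩ : ∃ φ0 φ1 φ2 : R, ∀ e, π ∣ e →
      π ^ 3 ∣ aa e n - (φ0 + φ1 * (π + 2 * e) + φ2 * (π + 2 * e) ^ 2) := by
    obtain ⟨d, hd⟩ := C.tay_aa le_rfl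
    generalize 3 * aa 0 n * hh R n = c at hd
    refine ⟨aa 0 n - c * iv 2 * π + d * iv 2 ^ 2 * π ^ 2, c * iv 2 - 2 * d * iv 2 ^ 2 * π,
      d * iv 2 ^ 2, fun e he => ?_⟩
    obtain ⟨r, hr⟩ := hd e he
    exact ⟨r, by linear_combination hr - (c * e + d * e ^ 2 * (2 * iv (2 : R) + 1)) * h2⟩
  have key : ∀ e e', π ∣ e → π ∣ e' → π ^ 3 ∣ aa e n * aa e' n - (φ0 ^ 2 +
      φ0 * φ1 * (π + 2 * e + (π + 2 * e')) + φ0 * φ2 * (π + 2 * e + (π + 2 * e')) ^ 2 +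
      (φ1 ^ 2 - 2 * φ0 * φ2) * ((π + 2 * e) * (π + 2 * e'))) := fun e e' h h' => by
    obtain ⟨r, hr⟩ := hφ e h
    obtain ⟨s, hs⟩ := hφ e' h'
    obtain ⟨t, rfl⟩ := h
    obtain ⟨t', rfl⟩ := h'
    exact ⟨r * aa (π * t') n + (φ0 + φ1 * (π + 2 * (π * t)) + φ2 * (π + 2 * (π * t)) ^ 2) * s +
      (1 + 2 * t) * (1 + 2 * t') * φ2 * (φ1 * (2 + 2 * t + 2 * t') +
        φ2 * π * (1 + 2 * t) * (1 + 2 * t')), by
      linear_combination aa (π * t') n * hr +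
        (φ0 + φ1 * (π + 2 * (π * t)) + φ2 * (π + 2 * (π * t)) ^ 2) * hs⟩
  have he : π ∣ -(π * iv 2) := (Dvd.intro _ rfl).neg_right
  obtain ⟨r0, hr0⟩ := key _ _ he he
  obtain ⟨s0, hs0⟩ := C.aa_refl he
  rw [show -π - -(π * iv 2) = -(π * iv 2) by linear_combination π * h2] at hs0
  rw [show π + 2 * -(π * iv 2) = 0 by linear_combination -π * h2] at hr0
  obtain ⟨r1, hr1⟩ := key 0 (-π - 0) (dvd_zero _) (by simp)
  obtain ⟨s1, hs1⟩ := C.aa_refl (dvd_zero π)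
  have h3 : φ1 ^ 2 - 2 * φ0 * φ2 = π * (r1 - s1 + s0 - r0) :=
    mul_left_cancel₀ (pow_ne_zero 2 C.pr.ne_zero) (by linear_combination hr1 - hs1 + hs0 - hr0)
  refine ⟨φ0 * φ1, φ0 * φ2, fun e e' h h' => ?_⟩
  obtain ⟨r, hr⟩ := key e e' h h'
  obtain ⟨t, rfl⟩ := h
  obtain ⟨t', rfl⟩ := h'
  exact ⟨r + (s0 - r0) + (r1 - s1 + s0 - r0) * (1 + 2 * t) * (1 + 2 * t'), by
    linear_combination hr + hs0 - hr0 + (π + 2 * (π * t)) * (π + 2 * (π * t')) * h3⟩

lemma J_mul {s : R} (hs : π ∣ s) (m : ℕ) (h1 : 1 ≤ m) (h2 : m ≤ 2 * n) :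
    (m + s) * J n s m = 1 := by
  rw [J, if_pos ⟨h1, h2⟩]; exact mul_iv (C.hu m h1 h2 s hs)

lemma aff_J (m : ℕ) : Aff π fun e e' => J n (e + e') m := by
  unfold J
  split_ifs with h
  · exact ((Aff.lin (m : R) 1 1).of_eq fun _ _ => by ring).inv fun _ _ a b =>
      C.hu m h.1 h.2 _ (a.add b)
  · exact Aff.const 0

theorem G_struct [IsDomain R] : ∃ (f : R → R) (τ τ' : R), (∀ e, π ∣ e → π ^ 3 ∣ f e) ∧
    ∀ e e', π ∣ e → π ∣ e' → π ^ 5 ∣ B 1 (Y n (aa e) e 1) (Y n (aa e') e' 1) -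
      (q e e' - 16 * q (π + 2 * e) (π + 2 * e') + f e + f e' +
        τ * ((π + 2 * e) ^ 3 * e' + (π + 2 * e') ^ 3 * e) + τ' * (e ^ 3 * e' + e' ^ 3 * e)) := by
  obtain ⟨κ, κ', hκ⟩ := C.aa_top
  obtain ⟨a1, a2, ha⟩ := Aff.sum (π := π) (n + 1) (f := fun k e e' => aa e' k * J n (e + e') k)
    fun k hk => ((C.aff_aa 0 1 (k := k) (by omega)).of_eq fun _ _ => by simp).mul (C.aff_J k)
  obtain ⟨b1, b2, hb⟩ := ((C.aff_aa 1 0 (k := n) (by omega)).of_eq (g := fun e _ => aa e n)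
    fun _ _ => by simp).mul (Aff.sum (π := π) (n + 1)
      (f := fun k e e' => aa e' k * J n (e + e') (n + k + 1))
      fun k hk => ((C.aff_aa 0 1 (k := k) (by omega)).of_eq fun _ _ => by simp).mul (C.aff_J _))
  beta_reduce at ha hb
  generalize ∑ k ∈ range (n + 1), aa (0 : R) k * J n (0 + 0) k = a0 at ha
  generalize aa (0 : R) n * ∑ k ∈ range (n + 1), aa (0 : R) k * J n (0 + 0) (n + k + 1) = b0 at hb
  refine ⟨fun e => -16 * (π + 2 * e) ^ 3 * (κ + κ' * (π + 2 * e + π)) + e ^ 3 * (a0 + a1 * e) -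
    8 * (π + 2 * e) ^ 3 * (b0 + b1 * e), -32 * κ' - 8 * b2, a2, fun e he => ?_,
    fun e e' h h' => ?_⟩
  · obtain ⟨t, rfl⟩ := he
    exact ⟨-16 * (1 + 2 * t) ^ 3 * (κ + κ' * (π + 2 * (π * t) + π)) + t ^ 3 * (a0 + a1 * (π * t)) -
      8 * (1 + 2 * t) ^ 3 * (b0 + b1 * (π * t)), by ring⟩
  have g := gram n (aa e) (aa e') e e' 1 (J n (e + e')) (by simp [J]) (by simp [J])
    (fun m h1 h2 => by rw [add_assoc]; exact C.J_mul (h.add h') m h1 h2) (C.aa_rec h) (C.aa_rec h')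
  obtain ⟨r0, h0⟩ := hκ e e' h h'
  obtain ⟨r1, h1⟩ := ha e e' h h'
  obtain ⟨r2, h2⟩ := ha e' e h' h
  obtain ⟨r3, h3⟩ := hb e e' h h'
  obtain ⟨r4, h4⟩ := hb e' e h' h
  rw [add_comm e' e] at h2 h4
  have hx : ∀ e : R, 2 * (n + e) + 1 = π + 2 * e := fun e => by rw [C.hp]; ring
  simp only [one_pow, mul_one, aa_zero, hx] at g
  rw [g]
  obtain ⟨t, rfl⟩ := h
  obtain ⟨t', rfl⟩ := h'
  refine ⟨-16 * q (1 + 2 * t) (1 + 2 * t') * r0 + t ^ 3 * r1 + t' ^ 3 * r2 -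
    8 * (1 + 2 * t) ^ 3 * r3 - 8 * (1 + 2 * t') ^ 3 * r4, ?_⟩
  unfold q
  linear_combination -16 * ((π + 2 * (π * t)) ^ 2 - (π + 2 * (π * t)) * (π + 2 * (π * t')) +
    (π + 2 * (π * t')) ^ 2) * h0 + (π * t) ^ 3 * h1 + (π * t') ^ 3 * h2 -
    8 * (π + 2 * (π * t)) ^ 3 * h3 - 8 * (π + 2 * (π * t')) ^ 3 * h4

end Ctx

end Pool.Agent.Work.MP_8625e1_nt
end

-- merged part: Pool.Agent.Work.MP_8625e1_nt.WZ
section
/-! The linear form `21 θ + 8` on the deformed series. -/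

namespace Pool.Agent.Work.MP_8625e1_nt

open Finset

variable {R : Type*} [CommRing R] {π : R} {n : ℕ}

/-- Coefficients of the row sums. -/
noncomputable def ee (e : R) (k : ℕ) : R := Dd e k * Q e k ^ 3

/-- Row sum. -/
noncomputable def PI (e η : R) (m : ℕ) : R :=
  ∑ j ∈ range m, ee e j * (3 * j + e + 2 * η) * P η j ^ 2

/-- The tail of the row sum. -/
noncomputable def ww (n : ℕ) (e η : R) : R :=
  ∑ j ∈ range n, ee e (j + 1) * (3 * (j + 1 : ℕ) + e + 2 * η) * P (η + 1) j ^ 2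

/-- Column sum on the left side. -/
noncomputable def UU (a e : R) (k : ℕ) : R := ∑ i ∈ range k, (P (1 + a) i * Q e (i + 1)) ^ 2

/-- The Ramanujan type sum. -/
noncomputable def LL (e : R) (m : ℕ) : R := ∑ j ∈ range m, (21 * (j + e) + 8) * aa e j

lemma PI_eq (e η : R) : PI e η (n + 1) = e + 2 * η + η ^ 2 * ww n e η := by
  rw [PI, sum_range_succ', ww, mul_sum]
  simp only [P_succ', ee]
  simp only [Dd_zero, Q_zero, P_zero, Nat.cast_zero]
  rw [add_comm]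
  exact congrArg₂ _ (by ring) (sum_congr rfl fun _ _ => by ring)

namespace Ctx

variable (C : Ctx n π)
include C

lemma row {e : R} (he : π ∣ e) (η : R) {m : ℕ} (hm : m ≤ 2 * n) :
    η ^ 2 * PI e (η + 1) m - (η - e) ^ 2 * PI e η m = ee e m * (m + e) ^ 3 * P η m ^ 2 - e ^ 3 := by
  induction m with
  | zero => simp [PI, ee]
  | succ m ih =>
    have h1 := ih (by omega)
    have h2 := P_succ' η m
    have h3 := P_succ η m
    have h4 : ee e (m + 1) * ((m + 1 : ℕ) + e) ^ 3 = 2 * (2 * (m + e) + 1) * ee e m := by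
      rw [ee, ee, Dd_succ, C.Q_succ he hm]; push_cast; ring
    rw [PI, PI, sum_range_succ, sum_range_succ, ← PI, ← PI, h4, h3]
    linear_combination h1 + ee e m * (3 * m + e + 2 * (η + 1)) *
      (η * P (η + 1) m + P η m * (η + m)) * (h3 - h2)

lemma step {e a : R} (he : π ∣ e) (ha : π ∣ a) {k m : ℕ} (hk : k + 1 ≤ 2 * n) (hm : m ≤ 2 * n) :
    (P (1 + a) (k + 1) * Q (a - e) (k + 1)) ^ 2 * PI e (1 + a + (k + 1 : ℕ)) m =
      (P (1 + a) k * Q (a - e) k) ^ 2 * PI e (1 + a + k) m +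
      (P (1 + a) k * Q (a - e) (k + 1)) ^ 2 *
        (ee e m * (m + e) ^ 3 * P (1 + a + k) m ^ 2 - e ^ 3) := by
  have h := C.row he (1 + a + k) hm
  rw [C.Q_succ (ha.sub he) hk, P_succ, Nat.cast_succ, ← add_assoc]
  linear_combination (P (1 + a) k * Q (a - e) (k + 1)) ^ 2 * h

lemma phase1 {e : R} (he : π ∣ e) {k : ℕ} (hk : k ≤ n) :
    4 * ((P (1 + 2 * e) k * Q e k) ^ 2 * PI e (1 + 2 * e + k) (k + 1)) =
      LL e (k + 1) - e - 4 * e ^ 3 * UU (2 * e) e k := by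
  induction k with
  | zero => simp [PI, LL, UU, ee]; ring
  | succ k ih =>
    have h1 := ih (by omega)
    have h2 := C.step he (he.mul_left 2) (k := k) (m := k + 1) (by omega) (by omega)
    rw [show 2 * e - e = e by ring] at h2
    have h3 := P_two e (k + 1)
    have h4 := P_add (1 + 2 * e) (k + 1) (k + 1)
    have h5 := P_add (1 + 2 * e) k (k + 1)
    have h6 := P_succ (1 + 2 * e) (k + (k + 1))
    have h7 := C.PQ he (show k + 1 ≤ 2 * n by omega)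
    rw [← two_mul, h3] at h4
    rw [show k + (k + 1) + 1 = 2 * (k + 1) by ring, h3, h5] at h6
    have h8 : P (1 + 2 * e) (k + 1) * P (1 + 2 * e + (k + 1 : ℕ)) (k + 1) * Q e (k + 1) =
      Dd e (k + 1) := by linear_combination Dd e (k + 1) * h7 - Q e (k + 1) * h4
    have h9 : P (1 + 2 * e) k * P (1 + 2 * e + k) (k + 1) * (2 * ((k + 1 : ℕ) + e)) * Q e (k + 1) =
      Dd e (k + 1) := by
      push_cast at h6 ⊢
      linear_combination Dd e (k + 1) * h7 - Q e (k + 1) * h6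
    rw [PI, sum_range_succ, ← PI, LL, sum_range_succ, ← LL, UU, sum_range_succ, ← UU]
    simp only [ee, aa] at h2 ⊢
    generalize Dd e (k + 1) = D at *
    linear_combination h1 + 4 * h2 + D * Q e (k + 1) ^ 3 * ((k + 1 : ℕ) + e) *
      (P (1 + 2 * e) k * P (1 + 2 * e + k) (k + 1) * (2 * ((k + 1 : ℕ) + e)) * Q e (k + 1) + D) * h9 +
      4 * D * Q e (k + 1) ^ 3 * (5 * ((k + 1 : ℕ) + e) + 2) *
      (P (1 + 2 * e) (k + 1) * P (1 + 2 * e + (k + 1 : ℕ)) (k + 1) * Q e (k + 1) + D) * h8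

lemma ee_top {e : R} (he : π ∣ e) :
    ee e (n + 1) * ((n + 1 : ℕ) + e) ^ 3 = 2 * (π + 2 * e) * ee e n := by
  have := C.n2
  rw [ee, ee, Dd_succ, C.Q_succ he (show n + 1 ≤ 2 * n by omega), C.hp]; push_cast; ring

lemma phase2 {e : R} (he : π ∣ e) {d : ℕ} (hd : d ≤ n) :
    4 * ((P (1 + 2 * e) (n + d) * Q e (n + d)) ^ 2 * PI e (1 + 2 * e + (n + d : ℕ)) (n + 1)) =
      LL e (n + 1) - e - 4 * e ^ 3 * UU (2 * e) e (n + d) + (π + 2 * e) ^ 3 * ∑ i ∈ range d,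
        8 * ee e n * (Q e (n + i + 1) * P (1 + 2 * e) (2 * n) * P (π + 1 + 2 * e) i) ^ 2 := by
  induction d with
  | zero => simpa using C.phase1 he le_rfl
  | succ d ih =>
    have := C.n2
    have h1 := ih (by omega)
    have h2 := C.step he (he.mul_left 2) (k := n + d) (m := n + 1) (by omega) (by omega)
    rw [show 2 * e - e = e by ring, C.ee_top he] at h2
    have h3 := P_add (1 + 2 * e) (n + d) (n + 1)
    rw [show n + d + (n + 1) = 2 * n + 1 + d by ring, P_add, P_succ,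
      show 1 + 2 * e + (2 * n + 1 : ℕ) = π + 1 + 2 * e by rw [C.hp]; push_cast; ring,
      show 1 + 2 * e + (2 * n : ℕ) = π + 2 * e by rw [C.hp]; push_cast; ring] at h3
    rw [← add_assoc, sum_range_succ, UU, sum_range_succ, ← UU]
    linear_combination h1 + 4 * h2 - 8 * (π + 2 * e) * ee e n * Q e (n + d + 1) ^ 2 *
      (P (1 + 2 * e) (2 * n) * (π + 2 * e) * P (π + 1 + 2 * e) d +
        P (1 + 2 * e) (n + d) * P (1 + 2 * e + (n + d : ℕ)) (n + 1)) * h3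

lemma UU_dvd {a e : R} (ha : π ∣ a) (he : π ∣ e) : π ∣ UU a e (2 * n) := by
  have h : π ∣ UU a e (2 * n) - ∑ i ∈ range (2 * n), iv ((i + 1 : ℕ) : R) ^ 2 := by
    rw [UU, ← sum_sub_distrib]
    refine dvd_sum fun i hi => dvd_trans ?_ (sub_dvd_pow_sub_pow _ _ 2)
    rw [mem_range] at hi
    have h1 := C.PQ he (k := i + 1) hi
    have h2 := mul_iv (C.un (m := i + 1) (by omega) hi)
    obtain ⟨r, hr⟩ := P_congr (π := π) (a := 1 + a) (b := 1 + e)
      (by rw [add_sub_add_left_eq_sub]; exact ha.sub he) i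
    obtain ⟨t, rfl⟩ := he
    rw [P_succ] at h1
    push_cast at h2 ⊢
    exact ⟨Q (π * t) (i + 1) * (r - iv ((i : R) + 1) * P (1 + π * t) i * t), by
      linear_combination Q (π * t) (i + 1) * hr + iv ((i : R) + 1) * h1 -
        P (1 + π * t) i * Q (π * t) (i + 1) * h2⟩
  simpa using h.add C.h2

lemma ww_shift [IsDomain R] {e a : R} (he : π + 2 * e = 0) (ha : π ∣ a) (a0 : a ≠ 0) :
    π ^ 4 ∣ (a + π) ^ 2 * ww n e (a + π) - (a - e) ^ 2 * ww n e a := by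
  have := C.n2
  have hd : π ∣ e := C.u2.dvd_mul_left.1 ⟨-1, by linear_combination he⟩
  have h0 : ee e (n + 1) * ((n + 1 : ℕ) + e) ^ 3 = 0 := by rw [C.ee_top hd, he]; ring
  have h1 : ∀ k ≤ 2 * n, (P (1 + a) k * Q (a - e) k) ^ 2 * PI e (1 + a + k) (n + 1) =
      PI e (a + 1) (n + 1) - e ^ 3 * UU a (a - e) k := fun k hk => by
    induction k with
    | zero => simp [UU, add_comm]
    | succ k ih =>
      rw [C.step hd ha hk (by omega), ih (by omega), h0, UU, UU, sum_range_succ]; ring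
  have h2 := h1 _ le_rfl
  have h3 := C.row hd a (m := n + 1) (by omega)
  rw [h0, PI_eq e a] at h3
  have h4 : PI e (a + 1) (n + 1) = 2 * a - 3 * e + (a - e) ^ 2 * ww n e a :=
    mul_left_cancel₀ (pow_ne_zero 2 a0) (by linear_combination h3)
  rw [h4, show 1 + a + (2 * n : ℕ) = a + π by rw [C.hp]; push_cast; ring, PI_eq] at h2
  obtain ⟨r, hr⟩ := C.K_one ha (ha.sub hd)
  obtain ⟨s, hs⟩ := C.UU_dvd ha (ha.sub hd)
  obtain ⟨t, rfl⟩ := ha
  obtain ⟨u, rfl⟩ := hd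
  exact ⟨-(r * (u + 2 * (t + 1) + π * (t + 1) ^ 2 * ww n (π * u) (π * t + π))) - u ^ 3 * s, by
    linear_combination h2 - (π * u + 2 * (π * t + π) + (π * t + π) ^ 2 *
      ww n (π * u) (π * t + π)) * hr - (π * u) ^ 3 * hs - 2 * he⟩

lemma aff_ee {k : ℕ} (hk : k ≤ 2 * n) : Aff π fun e _ => ee e k :=
  ((aff_Dd 1 0 k).mul ((C.aff_Q 1 0 hk).pow 3)).of_eq fun _ _ => by simp [ee]

lemma ww_struct [IsDomain R] : ∃ ω, ∀ e, π ∣ e →
    π ^ 2 ∣ ww n e (π + 2 * e) - ω * (π + 2 * e) := by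
  have := C.n2
  have h2 := mul_iv C.u2
  obtain ⟨c1, c2, hc⟩ : Aff π (ww n) := Aff.sum n
    (f := fun j (e η : R) => ee e (j + 1) * (3 * (j + 1 : ℕ) + e + 2 * η) * P (η + 1) j ^ 2) fun j hj =>
    (((C.aff_ee (k := j + 1) (by omega)).mul (Aff.lin (3 * ((j + 1 : ℕ) : R)) 1 2)).mul
      ((aff_P 1 0 1 j).pow 2)).of_eq fun _ _ => by simp [add_comm]
  have he : π + 2 * -(π * iv 2) = 0 := by linear_combination -π * h2
  have hd : π ∣ -(π * iv 2) := (Dvd.intro _ rfl).neg_right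
  have p0 := C.pr.ne_zero
  have hi : IsUnit (iv (2 : R)) := IsUnit.of_mul_eq_one_right _ h2
  obtain ⟨r1, h3⟩ := C.ww_shift he hd (neg_ne_zero.2 (mul_ne_zero p0 hi.ne_zero))
  obtain ⟨r2, h4⟩ := C.ww_shift he (dvd_refl π).neg_right (neg_ne_zero.2 p0)
  obtain ⟨r3, h5⟩ := hc _ (-(π * iv 2) + π) hd (hd.add (dvd_refl _))
  obtain ⟨r4, h6⟩ := hc _ (-π) hd (dvd_refl π).neg_right
  have h7 : ww n (-(π * iv 2)) (-(π * iv 2) + π) = π ^ 2 * (4 * r1) :=
    mul_left_cancel₀ (pow_ne_zero 2 p0) (by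
      linear_combination 4 * h3 - π ^ 2 * ww n (-(π * iv 2)) (-(π * iv 2) + π) *
        (2 * iv (2 : R) - 3) * h2)
  have h8 : ww n (-(π * iv 2)) (-π) = π ^ 2 * (-4 * r2) :=
    mul_left_cancel₀ (pow_ne_zero 2 p0) (by
      linear_combination -4 * h4 - π ^ 2 * ww n (-(π * iv 2)) (-π) * (2 * iv (2 : R) - 3) * h2)
  have h9 : π ∣ 3 * c2 := ⟨2 * (4 * r1 - r3 + 4 * r2 + r4), mul_left_cancel₀ p0 (by
    linear_combination 2 * (h7 - h5 - h8 + h6) + c2 * π * h2)⟩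
  obtain ⟨u, hu⟩ := C.u3.dvd_mul_left.1 h9
  refine ⟨c1 * iv 2, fun e h => ?_⟩
  obtain ⟨r, hr⟩ := hc e (π + 2 * e) h ((dvd_refl _).add (h.mul_left _))
  obtain ⟨t, rfl⟩ := h
  exact ⟨r - 4 * r2 - r4 + u * (2 + 2 * t), by
    linear_combination hr + h8 - h6 + π * (2 + 2 * t) * hu - c1 * π * t * h2⟩

theorem L_struct [IsDomain R] : ∃ t0 t1, ∀ e, π ∣ e →
    π ^ 4 ∣ LL e (n + 1) - (8 * π + 21 * e + t0 * (π + 2 * e) ^ 3 + t1 * e ^ 3) := by
  obtain ⟨ω, hω⟩ := C.ww_struct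
  have hV : Aff π fun e _ => ∑ i ∈ range n,
      8 * ee e n * (Q e (n + i + 1) * P (1 + 2 * e) (2 * n) * P (π + 1 + 2 * e) i) ^ 2 :=
    Aff.sum n (f := fun i e _ =>
      8 * ee e n * (Q e (n + i + 1) * P (1 + 2 * e) (2 * n) * P (π + 1 + 2 * e) i) ^ 2) fun i hi =>
      (((Aff.const 8).mul (C.aff_ee (k := n) (by omega))).mul
        ((((C.aff_Q 1 0 (k := n + i + 1) (by omega)).mul (aff_P 1 2 0 (2 * n))).mul
          (aff_P (π + 1) 2 0 i)).pow 2)).of_eq fun _ _ => by simp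
  obtain ⟨v, hv⟩ : ∃ v, ∀ e, π ∣ e → π ∣ ∑ i ∈ range n,
      8 * ee e n * (Q e (n + i + 1) * P (1 + 2 * e) (2 * n) * P (π + 1 + 2 * e) i) ^ 2 - v :=
    ⟨_, fun e he => hV.cst he (dvd_zero _)⟩
  refine ⟨4 * ω - v, 0, fun e he => ?_⟩
  have h := C.phase2 he le_rfl
  rw [← two_mul, show 1 + 2 * e + (2 * n : ℕ) = π + 2 * e by rw [C.hp]; push_cast; ring, PI_eq] at h
  obtain ⟨r1, h1⟩ := hω e he
  obtain ⟨r2, h2⟩ := hv e he
  obtain ⟨r3, h3⟩ := C.K_one (he.mul_left 2) he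
  obtain ⟨r4, h4⟩ := C.UU_dvd (he.mul_left 2) he
  obtain ⟨t, rfl⟩ := he
  exact ⟨4 * r3 * (t + 2 * (1 + 2 * t) + π * (1 + 2 * t) ^ 2 * ww n (π * t) (π + 2 * (π * t))) +
    4 * (1 + 2 * t) ^ 2 * r1 + 4 * t ^ 3 * r4 - (1 + 2 * t) ^ 3 * r2, by
    linear_combination -h + 4 * (π * t + 2 * (π + 2 * (π * t)) + (π + 2 * (π * t)) ^ 2 *
      ww n (π * t) (π + 2 * (π * t))) * h3 + 4 * (π + 2 * (π * t)) ^ 2 * h1 +
      4 * (π * t) ^ 3 * h4 - (π + 2 * (π * t)) ^ 3 * h2⟩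

end Ctx

end Pool.Agent.Work.MP_8625e1_nt
end

-- merged part: Pool.Agent.Work.MP_8625e1_nt.Plane
section
/-! The hyperbolic plane orthogonal to `21 θ + 8` at `z = 1`. -/

namespace Pool.Agent.Work.MP_8625e1_nt

open Finset

variable {R : Type*} [CommRing R] {π : R} {n : ℕ}

/-- First isotropic coordinate. -/
noncomputable def al (n : ℕ) (e : R) : R := Y n (aa e) e 1 0

/-- Second isotropic coordinate. -/
noncomputable def la (n : ℕ) (e : R) : R :=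
  441 * Y n (aa e) e 1 2 + 392 * Y n (aa e) e 1 1 + 88 * Y n (aa e) e 1 0

lemma LL_eq (e : R) : LL e (n + 1) = 21 * Y n (aa e) e 1 1 + 8 * Y n (aa e) e 1 0 := by
  simp only [LL, Y, mul_sum, ← sum_add_distrib]
  exact sum_congr rfl fun _ _ => by ring

lemma gam (e e' : R) : al n e * la n e' + al n e' * la n e =
    LL e (n + 1) * LL e' (n + 1) - 7 * B 1 (Y n (aa e) e 1) (Y n (aa e') e' 1) := by
  rw [LL_eq, LL_eq, al, al, la, la, B]; ring

namespace Ctx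

variable [IsDomain R] (C : Ctx n π)
include C

lemma A3 {e e' : R} (h : π ∣ e) (h' : π ∣ e') : π ^ 3 ∣ al n e * la n e' + al n e' * la n e -
    (441 * e ^ 2 + 392 * π * e + 88 * π ^ 2 + (441 * e' ^ 2 + 392 * π * e' + 88 * π ^ 2)) := by
  obtain ⟨f, τ, τ', hf, hG⟩ := C.G_struct
  obtain ⟨t0, t1, hL⟩ := C.L_struct
  obtain ⟨r, hr⟩ := hG e e' h h'
  obtain ⟨a, ha⟩ := hf e h
  obtain ⟨a', ha'⟩ := hf e' h'
  obtain ⟨s, hs⟩ := hL e h
  obtain ⟨s', hs'⟩ := hL e' h'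
  obtain ⟨t, rfl⟩ := h
  obtain ⟨t', rfl⟩ := h'
  rw [gam]
  unfold q at hr
  exact ⟨(t0 * (1 + 2 * t) ^ 3 + t1 * t ^ 3 + π * s) * LL (π * t') (n + 1) +
    π * (8 + 21 * t) * (t0 * (1 + 2 * t') ^ 3 + t1 * t' ^ 3 + π * s') -
    7 * (a + a' + π * (τ * ((1 + 2 * t) ^ 3 * t' + (1 + 2 * t') ^ 3 * t) +
      τ' * (t ^ 3 * t' + t' ^ 3 * t) + π * r)), by
    linear_combination LL (π * t') (n + 1) * hs + π * (8 + 21 * t) * hs' - 7 * (hr + ha + ha')⟩

lemma B5 : ∃ τ τ' : R, ∀ t t', π ^ 5 ∣ 2 * (al n (π * t) - al n (π * t')) *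
    (la n (π * t) - la n (π * t')) -
      π ^ 4 * (t - t') * (τ * ((1 + 2 * t) ^ 3 - (1 + 2 * t') ^ 3) + τ' * (t ^ 3 - t' ^ 3)) := by
  obtain ⟨f, τ, τ', -, hG⟩ := C.G_struct
  obtain ⟨t0, t1, hL⟩ := C.L_struct
  refine ⟨42 * t0 - 14 * τ, 42 * t1 - 14 * τ', fun t t' => ?_⟩
  have h : π ∣ π * t := Dvd.intro _ rfl
  have h' : π ∣ π * t' := Dvd.intro _ rfl
  obtain ⟨r1, h1⟩ := hG _ _ h h
  obtain ⟨r2, h2⟩ := hG _ _ h h'
  obtain ⟨r3, h3⟩ := hG _ _ h' h'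
  obtain ⟨s, hs⟩ := hL _ h
  obtain ⟨s', hs'⟩ := hL _ h'
  have g1 := gam (n := n) (π * t) (π * t)
  have g2 := gam (n := n) (π * t) (π * t')
  have g3 := gam (n := n) (π * t') (π * t')
  unfold q at h1 h2 h3
  obtain ⟨m, hm⟩ : ∃ m, m = t0 * ((1 + 2 * t) ^ 3 - (1 + 2 * t') ^ 3) + t1 * (t ^ 3 - t' ^ 3) +
    π * (s - s') := ⟨_, rfl⟩
  have hd : LL (π * t) (n + 1) - LL (π * t') (n + 1) = 21 * π * (t - t') + π ^ 3 * m := by
    linear_combination hs - hs' - π ^ 3 * hm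
  exact ⟨π * m ^ 2 + 42 * (t - t') * (s - s') - 7 * (r1 - 2 * r2 + r3), by
    linear_combination g1 - 2 * g2 + g3 - 7 * (h1 - 2 * h2 + h3) +
      (LL (π * t) (n + 1) - LL (π * t') (n + 1) + (21 * π * (t - t') + π ^ 3 * m)) * hd +
      42 * π ^ 4 * (t - t') * hm⟩

omit [IsDomain R] in
lemma tay_la : ∃ c, Tay π (la n) c := by
  obtain ⟨c0, h0⟩ := C.tay_Y 0
  obtain ⟨c1, h1⟩ := C.tay_Y 1
  obtain ⟨c2, h2⟩ := C.tay_Y 2
  exact ⟨_, ((((Tay.lin 441 0).mul h2).add ((Tay.lin 392 0).mul h1)).add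
    ((Tay.lin 88 0).mul h0)).of_eq (fun _ _ => by simp [la]) rfl⟩

lemma cancel {k : ℕ} {x : R} (h : π ^ (k + 1) ∣ π ^ k * x) : π ∣ x := by
  rwa [pow_succ, mul_dvd_mul_iff_left (pow_ne_zero k C.pr.ne_zero)] at h

theorem ordinary (h7 : IsUnit (7 : R)) (h0 : ¬ π ∣ al n 0) {c : R} (hc : Tay π (al n) c) :
    π ^ 2 ∣ c := by
  obtain ⟨d, hd⟩ := hc
  obtain ⟨τ, τ', hB⟩ := C.B5
  have hl : ∀ t, ∃ r, al n 0 * la n (π * t) = π ^ 2 * (441 * t ^ 2 + 392 * t + 88 + π * r) :=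
    fun t => by
    have h : π ∣ π * t := Dvd.intro _ rfl
    obtain ⟨r, hr⟩ := C.A3 h h
    obtain ⟨s, hs⟩ := hd _ h
    have h1 : ¬ π ∣ 2 * al n (π * t) := fun h2 => h0 (by
      obtain ⟨u, hu⟩ := C.u2.dvd_mul_left.1 h2
      exact ⟨u - c * t - d * π * t ^ 2 - π ^ 2 * s, by linear_combination hu - hs⟩)
    obtain ⟨u, hu⟩ := C.pr.pow_dvd_of_dvd_mul_left 2 h1 (b := la n (π * t))
      ⟨2 * (441 * t ^ 2 + 392 * t + 88) + π * r, by linear_combination hr⟩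
    obtain ⟨v, hv⟩ := C.u2.dvd_mul_left.1 (C.cancel (k := 2)
      (x := 2 * (al n 0 * u - (441 * t ^ 2 + 392 * t + 88)))
      ⟨r - 2 * u * (c * t + d * π * t ^ 2 + π ^ 2 * s), by
        linear_combination hr - 2 * al n (π * t) * hu - 2 * π ^ 2 * u * hs⟩)
    exact ⟨v, by linear_combination al n 0 * hu + π ^ 2 * hv⟩
  have u98 : IsUnit (98 : R) := by
    simpa [show (2 : R) * 7 ^ 2 = 98 by norm_num] using C.u2.mul (h7.pow 2)
  obtain ⟨c', rfl⟩ : π ∣ c := by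
    obtain ⟨r, hr⟩ := hB 0 (-1)
    obtain ⟨r1, h1⟩ := hl 0
    obtain ⟨r2, h2⟩ := hl (-1)
    obtain ⟨s, hs⟩ := hd (π * -1) (Dvd.intro _ rfl)
    rw [mul_zero] at hr h1
    refine u98.dvd_mul_left.1 (C.cancel (k := 3) ⟨?_, ?_⟩)
    · exact 2 * (d + π * s) * (49 - π * (r1 - r2)) + 2 * c * (r1 - r2) -
        al n 0 * (π * r + 2 * τ + τ')
    · linear_combination -al n 0 * hr + 2 * (al n 0 - al n (π * -1)) * (h1 - h2) -
        2 * π ^ 2 * (-49 + π * (r1 - r2)) * hs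
  have hE : ∀ t t', π ∣ 2 * (c' * (t - t') + d * (t ^ 2 - t' ^ 2)) *
      (441 * (t ^ 2 - t' ^ 2) + 392 * (t - t')) - al n 0 * (t - t') *
      (τ * ((1 + 2 * t) ^ 3 - (1 + 2 * t') ^ 3) + τ' * (t ^ 3 - t' ^ 3)) := fun t t' => by
    obtain ⟨r, hr⟩ := hB t t'
    obtain ⟨r1, h1⟩ := hl t
    obtain ⟨r2, h2⟩ := hl t'
    obtain ⟨s1, k1⟩ := hd (π * t) (Dvd.intro _ rfl)
    obtain ⟨s2, k2⟩ := hd (π * t') (Dvd.intro _ rfl)
    refine C.cancel (k := 4) ⟨al n 0 * r - 2 * (c' * (t - t') + d * (t ^ 2 - t' ^ 2)) * (r1 - r2) -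
      2 * (s1 - s2) * (441 * (t ^ 2 - t' ^ 2) + 392 * (t - t') + π * (r1 - r2)), ?_⟩
    linear_combination al n 0 * hr - 2 * (al n (π * t) - al n (π * t')) * (h1 - h2) -
      2 * π ^ 2 * (441 * (t ^ 2 - t' ^ 2) + 392 * (t - t') + π * (r1 - r2)) * (k1 - k2)
  obtain ⟨a1, e1⟩ := hE 1 (-1)
  obtain ⟨a2, e2⟩ := hE 0 1
  obtain ⟨a3, e3⟩ := hE 0 (-1)
  obtain ⟨a4, e4⟩ := hE 1 (-2)
  have u : IsUnit (12348 : R) := by
    simpa [show (2 : R) ^ 2 * 3 ^ 2 * 7 ^ 3 = 12348 by norm_num] using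
      ((C.u2.pow 2).mul (C.u3.pow 2)).mul (h7.pow 3)
  rw [sq]
  exact mul_dvd_mul_left π (u.dvd_mul_left.1 ⟨5 * a1 - a2 + 35 * a3 - 2 * a4, by
    linear_combination 5 * e1 - e2 + 35 * e3 - 2 * e4⟩)

theorem nondeg (h7 : IsUnit (7 : R)) (h0 : π ∣ al n 0) : ¬ π ∣ la n 0 := by
  rintro ⟨l, hl⟩
  obtain ⟨a, ha⟩ := h0
  obtain ⟨d, hd⟩ : Tay π (al n) _ := C.tay_Y0
  obtain ⟨c, d', hd'⟩ := C.tay_la
  have p1 := dvd_refl π
  obtain ⟨r1, h1⟩ := C.A3 (dvd_zero _) p1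
  obtain ⟨r2, h2⟩ := C.A3 (dvd_zero _) p1.neg_right
  obtain ⟨r3, h3⟩ := C.A3 (dvd_zero _) (dvd_zero _)
  obtain ⟨s1, k1⟩ := hd _ p1
  obtain ⟨s2, k2⟩ := hd _ p1.neg_right
  obtain ⟨s3, k3⟩ := hd' _ p1
  obtain ⟨s4, k4⟩ := hd' _ p1.neg_right
  have u : IsUnit (882 : R) := by
    simpa [show (2 : R) * 3 ^ 2 * 7 ^ 2 = 882 by norm_num] using
      (C.u2.mul (C.u3.pow 2)).mul (h7.pow 2)
  refine C.pr.not_isUnit (isUnit_of_dvd_unit (C.cancel (k := 2) ⟨?_, ?_⟩) u)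
  · exact a * (2 * d' + π * (s3 + s4)) + l * (2 * d + π * (s1 + s2)) - (r1 + r2 - 2 * r3)
  · linear_combination -(h1 + h2 - 2 * h3) + al n 0 * (k3 + k4) + la n 0 * (k1 + k2) +
      π ^ 2 * (2 * d' + π * (s3 + s4)) * ha + π ^ 2 * (2 * d + π * (s1 + s2)) * hl

lemma Y1_dvd (h7 : IsUnit (7 : R)) (h0 : π ∣ al n 0) : π ∣ Y n (aa (0 : R)) 0 1 1 := by
  obtain ⟨t0, t1, hL⟩ := C.L_struct
  obtain ⟨r, hr⟩ := hL 0 (dvd_zero _)
  obtain ⟨a, ha⟩ := h0
  rw [LL_eq] at hr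
  rw [al] at ha
  exact (C.u3.mul h7).dvd_mul_left.1 ⟨8 + t0 * π ^ 2 + π ^ 3 * r - 8 * a, by
    linear_combination hr - 8 * ha⟩

theorem supersingular (h7 : IsUnit (7 : R)) (h0 : π ∣ al n 0) {s : R}
    (hc : Tay π (al n) (6 * s)) : π ∣ s ∧
    π ^ 2 ∣ 27 * s * Y n (aa (0 : R)) 0 1 2 - 4 * π ∧ π ^ 3 ∣ 66 * π * s - 49 * al n 0 := by
  have hn := C.nondeg h7 h0
  obtain ⟨d, hd⟩ := hc
  obtain ⟨c, d', hd'⟩ := C.tay_la
  have p1 := dvd_refl π
  obtain ⟨r1, h1⟩ := C.A3 (dvd_zero _) p1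
  obtain ⟨r2, h2⟩ := C.A3 (dvd_zero _) p1.neg_right
  obtain ⟨r3, h3⟩ := C.A3 (dvd_zero _) (dvd_zero _)
  obtain ⟨s1, k1⟩ := hd _ p1
  obtain ⟨s2, k2⟩ := hd _ p1.neg_right
  obtain ⟨s3, k3⟩ := hd' _ p1
  obtain ⟨s4, k4⟩ := hd' _ p1.neg_right
  obtain ⟨a, ha⟩ := C.pr.pow_dvd_of_dvd_mul_left 2 hn (b := al n 0)
    (C.u2.dvd_mul_left.1 ⟨176 + π * r3, by linear_combination h3⟩)
  have u4 : IsUnit (4 : R) := by simpa [show (2 : R) ^ 2 = 4 by norm_num] using C.u2.pow 2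
  obtain ⟨b, hb⟩ : π ^ 2 ∣ 3 * s * la n 0 - 196 * π := by
    refine u4.dvd_mul_left.1 ((mul_dvd_mul_iff_left C.pr.ne_zero).1
      ⟨r1 - r2 - a * (2 * c + π ^ 2 * (s3 - s4)) - la n 0 * (s1 - s2), ?_⟩)
    linear_combination h1 - h2 - al n 0 * (k3 - k4) - la n 0 * (k1 - k2) -
      π * (2 * c + π ^ 2 * (s3 - s4)) * ha
  obtain ⟨s', rfl⟩ : π ∣ s := C.u3.dvd_mul_left.1
    ((C.pr.dvd_or_dvd ⟨196 + π * b, by linear_combination hb⟩).resolve_right hn)
  obtain ⟨y, hy⟩ := C.Y1_dvd h7 h0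
  refine ⟨Dvd.intro _ rfl, ?_, ?_⟩
  · refine (h7.pow 2).dvd_mul_left.1 ⟨b - 3 * s' * (392 * y + 88 * π * a), ?_⟩
    rw [la] at hb
    rw [al] at ha
    linear_combination hb - 3 * π * s' * (392 * hy + 88 * ha)
  · refine C.pr.pow_dvd_of_dvd_mul_left 3 hn (C.u2.dvd_mul_left.1 ⟨44 * b - 49 * r3, ?_⟩)
    linear_combination 44 * π * hb - 49 * h3

end Ctx

end Pool.Agent.Work.MP_8625e1_nt
end

-- merged part: Pool.Agent.Work.MP_8625e1_nt.Sign
section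
/-! Which case occurs: the Wronskian of the truncated series. -/

namespace Pool.Agent.Work.MP_8625e1_nt

open Finset Polynomial

lemma sign_alg {A : Type*} [CommRing A] {ρ z W : A} (hρ : Prime ρ) {u v : ℕ → A}
    (huu : ρ ∣ B z u u) (huv : ρ ∣ B z u v) (hvv : ρ ∣ B z v v + (1 - 64 * z) * W ^ 2)
    (h1 : ¬ ρ ∣ 1 - 64 * z) (h2 : ¬ ρ ∣ u 0 * v 1 - u 1 * v 0 + W * u 0) (h3 : ¬ ρ ∣ u 0) :
    ρ ∣ u 0 * v 1 - u 1 * v 0 - W * u 0 ∧ ρ ∣ (1 - 64 * z) * (u 1 * v 2 - u 2 * v 1) -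
      W * ((1 - 64 * z) * u 2 - 32 * z * u 1 - 16 * z * u 0) := by
  obtain ⟨a, ha⟩ := huu
  obtain ⟨b, hb⟩ := huv
  obtain ⟨c, hc⟩ := hvv
  unfold B at ha hb hc
  have h4 : ρ ∣ (1 - 64 * z) * ((u 0 * v 1 - u 1 * v 0 + W * u 0) *
      (u 0 * v 1 - u 1 * v 0 - W * u 0)) := ⟨2 * u 0 * v 0 * b - u 0 ^ 2 * c - v 0 ^ 2 * a, by
    linear_combination 2 * u 0 * v 0 * hb - u 0 ^ 2 * hc - v 0 ^ 2 * ha⟩
  have h5 := (hρ.dvd_or_dvd ((hρ.dvd_or_dvd h4).resolve_left h1)).resolve_left h2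
  refine ⟨h5, (hρ.dvd_or_dvd (a := u 0) ?_).resolve_left h3⟩
  obtain ⟨d, hd⟩ := h5
  exact ⟨u 1 * b - v 1 * a + d * ((1 - 64 * z) * u 2 - 32 * z * u 1 - 16 * z * u 0), by
    linear_combination u 1 * hb - v 1 * ha +
      ((1 - 64 * z) * u 2 - 32 * z * u 1 - 16 * z * u 0) * hd⟩

variable {R : Type*} [CommRing R] {π : R} {n : ℕ}

/-- The truncated series as polynomials. -/
noncomputable def U (n : ℕ) (e : R) : ℕ → R[X] := Y n (fun k => C (aa e k)) (C e) X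

lemma eval_U (e z : R) (i : ℕ) : (U n e i).eval z = Y n (aa e) e z i := by
  simpa [U] using map_Y (evalRingHom z) n (fun k => C (aa e k)) (C e) X i

lemma not_dvd {f : R[X]} (hπ : Prime π) (h : IsUnit (f.eval 0)) : ¬ C π ∣ f := fun hf =>
  hπ.not_isUnit (isUnit_of_dvd_unit (by simpa using map_dvd (evalRingHom 0) hf) h)

namespace Ctx

variable [IsDomain R] (K : Ctx n π)
include K

lemma gram_poly (t t' : R) : C π ^ 3 ∣ B X (U n (π * t)) (U n (π * t')) -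
    C π ^ 2 * (q (C t) (C t') - 16 * q (1 + 2 * C t) (1 + 2 * C t') * X ^ (2 * n + 1)) := by
  have h : π ∣ π * t := Dvd.intro _ rfl
  have h' : π ∣ π * t' := Dvd.intro _ rfl
  have hr : ∀ e, π ∣ e → ∀ j < n, (((j + 1 : ℕ) : R[X]) + C e) ^ 3 * C (aa e (j + 1)) =
      8 * (2 * (j + C e) + 1) ^ 3 * C (aa e j) := fun e he j hj => by
    simpa [map_ofNat] using congrArg C (K.aa_rec he j hj)
  have g := gram n (fun k => C (aa (π * t) k)) (fun k => C (aa (π * t') k)) (C (π * t))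
    (C (π * t')) X (fun m => C (J n (π * t + π * t') m)) (by simp [J]) (by simp [J])
    (fun m h1 h2 => by simpa [add_assoc] using congrArg C (K.J_mul (h.add h') m h1 h2))
    (hr _ h) (hr _ h')
  obtain ⟨κ, κ', hκ⟩ := K.aa_top
  obtain ⟨r, hr⟩ := hκ _ _ h h'
  obtain ⟨s, hs⟩ : ∃ s, aa (π * t) n * aa (π * t') n = 1 + π * s :=
    ⟨κ * (2 + 2 * t + 2 * t') + κ' * π * (2 + 2 * t + 2 * t') ^ 2 + π ^ 2 * r, by
      linear_combination hr⟩
  have hs' := congrArg C hs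
  have hp : C π = 2 * n + 1 := by simpa [map_ofNat] using congrArg C K.hp
  have hx : ∀ e : R[X], 2 * (n + e) + 1 = C π + 2 * e := fun e => by rw [hp]; ring
  simp only [aa_zero, hx, map_mul, map_add, map_one] at g hs'
  rw [U, U]
  simp only [map_mul]
  rw [g, hs']
  generalize ∑ k ∈ range (n + 1), C (aa (π * t') k) * X ^ k * _ = s1
  generalize ∑ k ∈ range (n + 1), C (aa (π * t') k) * X ^ (n + k + 1) * _ = s2
  generalize ∑ k ∈ range (n + 1), C (aa (π * t) k) * X ^ k * _ = s3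
  generalize ∑ k ∈ range (n + 1), C (aa (π * t) k) * X ^ (n + k + 1) * _ = s4
  exact ⟨-16 * q (1 + 2 * C t) (1 + 2 * C t') * C s * X ^ (2 * n + 1) + C t ^ 3 * s1 -
    8 * (1 + 2 * C t) ^ 3 * C (aa (π * t) n) * s2 + C t' ^ 3 * s3 -
    8 * (1 + 2 * C t') ^ 3 * C (aa (π * t') n) * s4, by unfold q; ring⟩

omit [IsDomain R] in
lemma U_sub (i : ℕ) : C π ∣ U n π i - U n 0 i := by
  rw [U, U, Y, Y, ← sum_sub_distrib]
  refine dvd_sum fun k hk => ?_
  rw [mem_range] at hk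
  have h := map_dvd C (((K.aff_aa 1 0 (k := k) (by omega)).mul ((Aff.lin (k : R) 1 0).pow i)).cst
    (dvd_refl π) (dvd_zero π))
  rw [← sub_mul]
  refine Dvd.dvd.mul_right ?_ _
  simpa using h

omit [IsDomain R] in
lemma frob (hp : (2 * n + 1).Prime) :
    C π ∣ (1 - 64 * X) ^ (2 * n + 1) - (1 - 64 * X ^ (2 * n + 1)) := by
  obtain ⟨r, hr⟩ := exists_add_pow_prime_eq hp (1 : R[X]) (-64 * X)
  obtain ⟨s, hs⟩ := Int.prime_dvd_pow_self_sub hp (-64)
  have hs' := congrArg (Int.cast : ℤ → R[X]) hs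
  have hq : C π = 2 * n + 1 := by simpa [map_ofNat] using congrArg C K.hp
  rw [mul_pow, one_pow] at hr
  push_cast at hr hs'
  rw [hq]
  exact ⟨(s : R[X]) * X ^ (2 * n + 1) - 64 * X * r, by
    linear_combination hr + X ^ (2 * n + 1) * hs'⟩

theorem wronski (hp : (2 * n + 1).Prime) : ∃ v : ℕ → R,
    (∀ i, Y n (aa π) π 1 i = Y n (aa (0 : R)) 0 1 i + π * v i) ∧
    π ∣ B 1 (Y n (aa (0 : R)) 0 1) v ∧
    π ∣ al n 0 * v 1 - Y n (aa (0 : R)) 0 1 1 * v 0 - (-63) ^ n * al n 0 ∧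
    π ∣ -63 * (Y n (aa (0 : R)) 0 1 1 * v 2 - Y n (aa (0 : R)) 0 1 2 * v 1) - (-63) ^ n *
      (-63 * Y n (aa (0 : R)) 0 1 2 - 32 * Y n (aa (0 : R)) 0 1 1 - 16 * al n 0) := by
  choose v hv using K.U_sub
  have p0 : (C π : R[X]) ≠ 0 := C_ne_zero.2 K.pr.ne_zero
  obtain ⟨r0, g0⟩ := K.gram_poly 0 0
  obtain ⟨r1, g1⟩ := K.gram_poly 0 1
  obtain ⟨r2, g2⟩ := K.gram_poly 1 1
  obtain ⟨r3, g3⟩ := K.frob hp
  have hu : ∀ i, U n π i = U n 0 i + C π * v i := fun i => by linear_combination hv i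
  simp only [mul_zero, mul_one, map_zero, map_one, q] at g0 g1 g2
  simp only [B, hu] at g1 g2
  have huu : C π ∣ B X (U n 0) (U n 0) :=
    ⟨C π * (C π * r0 - 16 * X ^ (2 * n + 1)), by linear_combination g0⟩
  have huv : C π ∣ B X (U n 0) v := ⟨C π * (r1 - r0) + 1 - 96 * X ^ (2 * n + 1),
    mul_left_cancel₀ p0 (by unfold B at g0 ⊢; linear_combination g1 - g0)⟩
  have hvv : C π ∣ B X v v + (1 - 64 * X) * ((1 - 64 * X) ^ n) ^ 2 := ⟨r2 - 2 * r1 + r0 + r3,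
    mul_left_cancel₀ (pow_ne_zero 2 p0) (by
      unfold B at g0 ⊢; linear_combination g2 - 2 * g1 + g0 + C π ^ 2 * g3)⟩
  have e0 : (U n (0 : R) 0).eval 0 = 1 := by simp [eval_U, Y, sum_range_succ']
  have e1 : (U n (0 : R) 1).eval 0 = 0 := by simp [eval_U, Y, sum_range_succ']
  have e2 : (v 1).eval 0 = 1 := by
    have := congrArg (eval 0) (hu 1)
    rw [eval_add, e1, eval_U, eval_mul, eval_C] at this
    refine mul_left_cancel₀ K.pr.ne_zero ?_
    simpa [Y, sum_range_succ'] using this.symm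
  obtain ⟨h1, h2⟩ := sign_alg (prime_C_iff.2 K.pr) huu huv hvv (not_dvd K.pr (by simp))
    (not_dvd K.pr (by simpa [e0, e1, e2, one_add_one_eq_two] using K.u2))
    (not_dvd K.pr (by simp [e0]))
  refine ⟨fun i => (v i).eval 1, fun i => ?_, ?_, ?_, ?_⟩
  · simpa [eval_U] using congrArg (eval 1) (hu i)
  · simpa [B, eval_U] using map_dvd (evalRingHom 1) huv
  · have := map_dvd (evalRingHom 1) h1
    simp only [coe_evalRingHom, eval_sub, eval_mul, eval_pow, eval_U, eval_C, eval_X, eval_one,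
      eval_ofNat] at this
    rwa [show (1 : R) - 64 * 1 = -63 by norm_num] at this
  · have := map_dvd (evalRingHom 1) h2
    simp only [coe_evalRingHom, eval_sub, eval_mul, eval_pow, eval_U, eval_C, eval_X, eval_one,
      eval_ofNat, mul_one] at this
    rwa [show (1 : R) - 64 = -63 by norm_num] at this

theorem sign (hp : (2 * n + 1).Prime) (h7 : IsUnit (7 : R)) :
    π ∣ al n 0 ↔ π ∣ (-63) ^ n + 1 := by
  obtain ⟨v, hv, ⟨b, hb⟩, ⟨c, hc⟩, ⟨d, hd⟩⟩ := K.wronski hp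
  obtain ⟨t0, t1, hL⟩ := K.L_struct
  obtain ⟨r0, h0⟩ := hL 0 (dvd_zero _)
  obtain ⟨r1, h1⟩ := hL π (dvd_refl _)
  rw [LL_eq] at h0 h1
  rw [hv, hv] at h1
  have u21 : IsUnit (21 : R) := by simpa [show (3 : R) * 7 = 21 by norm_num] using K.u3.mul h7
  have hl : 21 * v 1 + 8 * v 0 = 21 + π * (π * (26 * t0 + t1 + π * (r1 - r0))) :=
    mul_left_cancel₀ K.pr.ne_zero (by linear_combination h1 - h0)
  constructor
  · intro h
    have hn := K.nondeg h7 h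
    obtain ⟨y, hy⟩ := K.Y1_dvd h7 h
    obtain ⟨a, ha⟩ := h
    rw [al] at ha hd
    have h2 : ¬ π ∣ 63 * Y n (aa (0 : R)) 0 1 2 := fun ⟨w, hw⟩ =>
      hn ⟨7 * w + 392 * y + 88 * a, by rw [la]; linear_combination 7 * hw + 392 * hy + 88 * ha⟩
    unfold B at hb
    obtain ⟨w, hw⟩ := (K.pr.dvd_or_dvd (b := v 0) ⟨-b + 63 * y * v 1 - 63 * a * v 2 -
      32 * (y * v 0 + a * v 1) - 16 * a * v 0, by
        linear_combination -hb + (63 * v 1 - 32 * v 0) * hy -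
          (63 * v 2 + 32 * v 1 + 16 * v 0) * ha⟩).resolve_left h2
    obtain ⟨x, hx⟩ := (K.pr.dvd_or_dvd (b := v 1 + (-63) ^ n) ⟨d + 63 * y * v 2 -
      (-63) ^ n * (32 * y + 16 * a), by
        linear_combination hd + (63 * v 2 - (-63) ^ n * 32) * hy - (-63) ^ n * 16 * ha⟩).resolve_left h2
    exact u21.dvd_mul_left.1 ⟨21 * x + 8 * w - π * (26 * t0 + t1 + π * (r1 - r0)), by
      linear_combination 21 * hx + 8 * hw - hl⟩
  · rintro ⟨x, hx⟩
    rw [al] at hc ⊢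
    exact (K.u2.mul u21).dvd_mul_left.1 ⟨21 * c + 21 * x * Y n (aa (0 : R)) 0 1 0 -
      Y n (aa (0 : R)) 0 1 0 * (π * (26 * t0 + t1 + π * (r1 - r0))) +
      v 0 * (8 + t0 * π ^ 2 + π ^ 3 * r0), by
        linear_combination 21 * hc + 21 * Y n (aa (0 : R)) 0 1 0 * hx -
          Y n (aa (0 : R)) 0 1 0 * hl + v 0 * h0⟩

end Ctx

end Pool.Agent.Work.MP_8625e1_nt
end

-- merged part: Pool.Agent.Work.MP_8625e1_nt.Final
section
/-! Specialisation to the `p`-adic integers. -/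

namespace Pool.Agent.Work.MP_8625e1_nt

open Finset

lemma sum_Ioc_eq {M : Type*} [AddCommGroup M] (f : ℕ → M) {k m : ℕ} (h : k ≤ m) :
    ∑ j ∈ Ioc k m, f j = ∑ j ∈ range m, f (j + 1) - ∑ j ∈ range k, f (j + 1) := by
  induction m, h using Nat.le_induction with
  | base => simp
  | succ m h ih => rw [sum_Ioc_succ_top h, ih, sum_range_succ]; abel

section

variable {R : Type*} [CommRing R] {π : R} {n : ℕ}

lemma P_one (k : ℕ) : P (1 : R) k = k.factorial := by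
  induction k with
  | zero => simp
  | succ k ih => rw [P_succ, ih, Nat.factorial_succ]; push_cast; ring

lemma Ctx.aa_zero_left (K : Ctx n π) {k : ℕ} (hk : k ≤ n) :
    aa (0 : R) k = ((2 * k).choose k : R) ^ 3 := by
  have h1 := P_two (0 : R) k
  have h2 := K.PQ (dvd_zero π) (show k ≤ 2 * n by omega)
  have h3 := congrArg (Nat.cast : ℕ → R) (Nat.choose_mul_factorial_mul_factorial
    (show k ≤ 2 * k by omega))
  rw [show 2 * k - k = k by omega] at h3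
  simp only [mul_zero, add_zero, P_one] at h1 h2
  push_cast at h3
  rw [aa]
  congr 1
  linear_combination -Q (0 : R) k ^ 2 * (h1 + h3) - Dd 0 k * Q 0 k * h2 +
    ((2 * k).choose k : R) * (k.factorial * Q (0 : R) k + 1) * h2

lemma Ctx.hh_eq (K : Ctx n π) (k : ℕ) : hh R k = 2 * ∑ j ∈ Ioc k (2 * k), iv (j : R) := by
  rw [sum_Ioc_eq _ (show k ≤ 2 * k by omega)]
  induction k with
  | zero => simp [hh]
  | succ k ih =>
    have h := iv_mul (2 : R) (k + 1)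
    rw [hh, sum_range_succ, ← hh, ih, show 2 * (k + 1) = 2 * k + 1 + 1 by ring, sum_range_succ,
      sum_range_succ, sum_range_succ]
    push_cast
    rw [show 2 * (k : R) + 1 + 1 = 2 * (k + 1) by ring, h]
    linear_combination -iv ((k : R) + 1) * mul_iv K.u2

end

variable {p : ℕ} [hp : Fact p.Prime]

lemma unit_of {x : ℤ_[p]} (h : ¬ (p : ℤ_[p]) ∣ x) : IsUnit x := by
  rw [← PadicInt.norm_lt_one_iff_dvd] at h
  exact PadicInt.isUnit_iff.2 (le_antisymm x.norm_le_one (not_lt.1 h))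

lemma dvd_int {k : ℕ} {a : ℤ} : (p : ℤ_[p]) ^ k ∣ a ↔ (p : ℤ) ^ k ∣ a :=
  PadicInt.pow_p_dvd_int_iff k a

lemma dvd_int1 {a : ℤ} : (p : ℤ_[p]) ∣ a ↔ (p : ℤ) ∣ a := by simpa using dvd_int (k := 1) (a := a)

lemma unit_nat {m : ℕ} (h : ¬ p ∣ m) : IsUnit (m : ℤ_[p]) :=
  unit_of fun h' => h (Int.natCast_dvd_natCast.1 (dvd_int1.1 (by simpa using h')))

lemma ctx {n : ℕ} (hn : p = 2 * n + 1) (h3 : 3 < p) : Ctx n (p : ℤ_[p]) := by
  have hu : ∀ m : ℕ, 1 ≤ m → m ≤ 2 * n → IsUnit (m : ℤ_[p]) := fun m h1 h2 =>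
    unit_nat (Nat.not_dvd_of_pos_of_lt h1 (by omega))
  refine ⟨by simpa using congrArg (Nat.cast : ℕ → ℤ_[p]) hn, fun m h1 h2 e he => unit_of fun h => ?_, ?_, by omega,
    PadicInt.prime_p⟩
  · exact PadicInt.prime_p.not_isUnit (isUnit_of_dvd_unit ((dvd_add_left he).1 h) (hu m h1 h2))
  · rw [← Ideal.mem_span_singleton, ← PadicInt.maximalIdeal_eq_span_p, ← PadicInt.ker_toZMod,
      RingHom.mem_ker, map_sum]
    have h1 : ∀ i ∈ range (2 * n), PadicInt.toZMod (iv ((i + 1 : ℕ) : ℤ_[p]) ^ 2) =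
        ((i + 1 : ℕ) : ZMod p)⁻¹ ^ 2 := fun i hi => by
      have := congrArg PadicInt.toZMod (mul_iv (hu (i + 1) (by omega) (mem_range.1 hi)))
      rw [map_mul, map_natCast, map_one] at this
      rw [map_pow, eq_inv_of_mul_eq_one_right this]
    have h2 : ∑ i ∈ range p, ((i : ℕ) : ZMod p)⁻¹ ^ 2 = ∑ x : ZMod p, x⁻¹ ^ 2 :=
      sum_nbij' (fun i => (i : ZMod p)) ZMod.val (by simp) (fun x _ => mem_range.2 x.val_lt)
        (fun i hi => ZMod.val_cast_of_lt (mem_range.1 hi)) (by simp) (by simp)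
    have h4 := FiniteField.sum_pow_lt_card_sub_one (ZMod p) 2 (by rw [ZMod.card]; omega)
    rw [← Equiv.sum_comp (Function.Involutive.toPerm _ (inv_inv (G := ZMod p)))] at h4
    rw [sum_congr rfl h1]
    rw [congrArg range hn, sum_range_succ'] at h2
    simpa using h2.trans h4

lemma euler {n : ℕ} (hn : p = 2 * n + 1) (h3 : 3 < p) :
    (p : ℤ_[p]) ∣ (-63) ^ n - (jacobiSym (p % 7 : ℕ) 7 : ℤ) := by
  have ho : Odd p := ⟨n, hn⟩
  have h1 : jacobiSym (-63) p = jacobiSym (p % 7 : ℕ) 7 := by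
    have h2 : jacobiSym (3 ^ 2) p = 1 := jacobiSym.sq_one' (by
      have := (Nat.coprime_primes Nat.prime_three hp.out).2 (by omega)
      exact_mod_cast this)
    have h4 := jacobiSym.quadratic_reciprocity (a := 7) (by decide) ho
    have h5 : ((-1 : ℤ) ^ (p / 2)) ^ 2 = 1 := by rw [← pow_mul, mul_comm, pow_mul]; simp
    rw [show (-63 : ℤ) = -(7 : ℕ) * 3 ^ 2 by norm_num, jacobiSym.mul_left, h2, jacobiSym.neg _ ho,
      h4, ZMod.χ₄_eq_neg_one_pow (Nat.odd_iff.1 ho), jacobiSym.mod_left p, pow_mul']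
    push_cast
    linear_combination (((-1 : ℤ) ^ (p / 2)) ^ 2 + 1) * jacobiSym (p % 7) 7 * h5
  have h2 := legendreSym.eq_pow p (-63)
  rw [jacobiSym.legendreSym.to_jacobiSym, h1, show p / 2 = n by omega, ← Int.cast_pow,
    ZMod.intCast_eq_intCast_iff_dvd_sub] at h2
  simpa using dvd_int1.2 h2

theorem main (h3 : 3 < p) (h7 : p ≠ 7) (S : ℚ) (F D : ℤ)
    (hS : S = ∑ k ∈ range ((p - 1) / 2 + 1),
      ((2 * k).choose k : ℚ) ^ 3 * ∑ j ∈ Ioc k (2 * k), 1 / (j : ℚ))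
    (hF : F = ∑ k ∈ range ((p - 1) / 2 + 1), ((2 * k).choose k : ℤ) ^ 3)
    (hD : D = ∑ k ∈ range ((p - 1) / 2 + 1), (k : ℤ) ^ 2 * ((2 * k).choose k : ℤ) ^ 3) :
    ¬ p ∣ S.den ∧ (p % 7 = 1 ∨ p % 7 = 2 ∨ p % 7 = 4 → (p : ℤ) ^ 2 ∣ S.num) ∧
    (p % 7 = 3 ∨ p % 7 = 5 ∨ p % 7 = 6 → (p : ℤ) ∣ S.num ∧
      (p : ℤ) ^ 2 ∣ 27 * S.num * D - 4 * p * S.den ∧
      (p : ℤ) ^ 3 ∣ 66 * p * S.num - 49 * F * S.den) := by
  obtain ⟨n, hn⟩ := hp.out.odd_of_ne_two (by omega)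
  have K := ctx hn h3
  rw [show (p - 1) / 2 = n by omega] at hS hF hD
  have u7 : IsUnit (7 : ℤ_[p]) := by
    simpa using unit_nat (p := p) (m := 7) fun h =>
      h7 ((Nat.prime_dvd_prime_iff_eq hp.out (by norm_num)).1 h)
  obtain ⟨s, hs⟩ : ∃ s : ℤ_[p], s = ∑ k ∈ range (n + 1),
    ((2 * k).choose k : ℤ_[p]) ^ 3 * ∑ j ∈ Ioc k (2 * k), iv (j : ℤ_[p]) := ⟨_, rfl⟩
  have hT : Tay (p : ℤ_[p]) (al n) (6 * s) := K.tay_Y0.of_eq (fun _ _ => rfl) (by
    rw [hs, mul_sum]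
    refine sum_congr rfl fun k hk => ?_
    rw [K.aa_zero_left (by simpa [Nat.lt_succ_iff] using hk), K.hh_eq]; ring)
  have hF' : al n (0 : ℤ_[p]) = F := by
    rw [hF, al, Y]; push_cast
    exact sum_congr rfl fun k hk => by
      rw [K.aa_zero_left (by simpa [Nat.lt_succ_iff] using hk)]; simp
  have hD' : Y n (aa (0 : ℤ_[p])) 0 1 2 = D := by
    rw [hD, Y]; push_cast
    exact sum_congr rfl fun k hk => by
      rw [K.aa_zero_left (by simpa [Nat.lt_succ_iff] using hk)]; simp [mul_comm]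
  have hq : (S : ℚ_[p]) = s := by
    rw [hS, hs]
    simp only [PadicInt.coe_sum]
    push_cast
    refine sum_congr rfl fun k hk => ?_
    rw [PadicInt.coe_sum]
    refine congrArg _ (sum_congr rfl fun j hj => ?_)
    rw [mem_range] at hk
    rw [mem_Ioc] at hj
    have := congrArg (fun x : ℤ_[p] => (x : ℚ_[p])) (mul_iv (K.un (m := j) (by omega) (by omega)))
    simp only [PadicInt.coe_mul, PadicInt.coe_natCast, PadicInt.coe_one] at this
    rw [one_div, eq_inv_of_mul_eq_one_right this]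
  have ud : IsUnit (S.den : ℤ_[p]) := PadicInt.isUnit_den S (hq ▸ s.norm_le_one)
  have hnum : (S.num : ℤ_[p]) = s * S.den := by
    apply Subtype.ext
    have := congrArg ((↑) : ℚ → ℚ_[p]) (Rat.mul_den_eq_num S)
    push_cast at this ⊢
    rw [← hq, this]
  have he := euler hn h3
  have hsg := K.sign (hn ▸ hp.out) u7
  refine ⟨fun h => K.pr.not_isUnit (isUnit_of_dvd_unit (Nat.cast_dvd_cast h) ud), fun h => ?_,
    fun h => ?_⟩
  · have h1 : jacobiSym (p % 7 : ℕ) 7 = 1 := by rcases h with h | h | h <;> rw [h] <;> norm_num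
    rw [h1] at he
    have h2 : ¬ (p : ℤ_[p]) ∣ al n 0 := fun h2 => K.pr.not_isUnit (isUnit_of_dvd_unit
      (by simpa [one_add_one_eq_two] using (hsg.1 h2).sub he) K.u2)
    have h4 := K.ordinary u7 h2 hT
    rw [show (6 : ℤ_[p]) = 2 * 3 by norm_num] at h4
    rw [← dvd_int, hnum]
    exact ((K.u2.mul K.u3).dvd_mul_left.1 h4).mul_right _
  · have h1 : jacobiSym (p % 7 : ℕ) 7 = -1 := by rcases h with h | h | h <;> rw [h] <;> norm_num
    rw [h1] at he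
    obtain ⟨hs1, ⟨a, ha⟩, ⟨b, hb⟩⟩ := K.supersingular u7 (hsg.2 (by simpa using he)) hT
    rw [hD'] at ha
    rw [hF'] at hb
    rw [← dvd_int, ← dvd_int, ← dvd_int1]
    push_cast
    rw [hnum]
    exact ⟨hs1.mul_right _, ⟨a * S.den, by linear_combination S.den * ha⟩, ⟨b * S.den, by
      linear_combination S.den * hb⟩⟩

end Pool.Agent.Work.MP_8625e1_nt
end
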